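import Mathlib
import Pool.Agent.Lib.H35L.X8
import Pool.Agent.Lib.H16S.Defs

/-! # SSG/LT: the embedding of Ω in the algebraic closure of ℚ_p -/

open NumberField IsDedekindDomain

namespace SSG.LT

variable {F : Type} [Field F] [NumberField F] {Ω : Type} [Field Ω] [Algebra F Ω] [IsAlgClosure F Ω] {p : ℕ} [Fact p.Prime]

/-! Chunk EM (M). PROOF. Ω has characteristic 0 and is algebraic over ℚ (algebraic over F, F over ℚ: Algebra.IsAlgebraic.trans; the algebra ℚ → Ω is DivisionRing.toRatAlgebra, IsScalarTower ℚ F Ω is automatic: Rat subsingleton), so there is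
i₁ : Ω →ₐ[ℚ] PadicAlgCl p (IsAlgClosed.lift). V₀ = (H16S.ball (PadicAlgCl p)).comap i₁: x ∈ V₀ iff ‖i₁ x‖ ≤ 1; V₀.valuation p < 1: not ≥ 1, i.e. p⁻¹ ∉ V₀: ‖(p : PadicAlgCl p)‖ < 1 (PadicAlgCl.valuation_p or norm_extends, padicNormE.norm_p).
H35L.conj_all p .. hin hV hV₀: t with t x ∈ V₀ ↔ x ∈ V; i₀ = i₁.comp t. -/

theorem em (hin : Prime (p : 𝓞 F)) (V : ValuationSubring Ω) (hV : V.valuation (p : Ω) < 1) :
    ∃ i₀ : Ω →+* PadicAlgCl p, ∀ x, x ∈ V ↔ ‖i₀ x‖ ≤ 1 := by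
  have hp : p.Prime := Fact.out
  have hac : IsAlgClosed Ω := IsAlgClosure.isAlgClosed F
  have hal : Algebra.IsAlgebraic F Ω := IsAlgClosure.isAlgebraic
  have hch : CharZero Ω := charZero_of_injective_algebraMap (algebraMap F Ω).injective
  have halQ : Algebra.IsAlgebraic ℚ F := inferInstance
  have hal2 : Algebra.IsAlgebraic ℚ Ω := Algebra.IsAlgebraic.trans ℚ F Ω
  set i₁ : Ω →ₐ[ℚ] PadicAlgCl p := IsAlgClosed.lift with hi₁
  set V₀ : ValuationSubring Ω := (H16S.ball (PadicAlgCl p)).comap (i₁ : Ω →+* PadicAlgCl p) with hV₀d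
  have hmem : ∀ x, x ∈ V₀ ↔ ‖i₁ x‖ ≤ 1 := fun x => Iff.rfl
  have hpn : ‖(p : PadicAlgCl p)‖ < 1 := by
    have h1 : (p : PadicAlgCl p) = algebraMap ℚ_[p] (PadicAlgCl p) (p : ℚ_[p]) := (map_natCast _ p).symm
    rw [h1, PadicAlgCl.norm_extends]
    exact Padic.norm_p_lt_one
  have hp0 : (p : PadicAlgCl p) ≠ 0 := by
    exact_mod_cast hp.ne_zero
  have hV₀ : V₀.valuation (p : Ω) < 1 := by
    by_contra hc
    push Not at hc
    have hpΩ : (p : Ω) ≠ 0 := by exact_mod_cast hp.ne_zero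
    have h1 : V₀.valuation ((p : Ω)⁻¹) ≤ 1 := by
      rw [map_inv₀]
      exact inv_le_one_of_one_le₀ hc
    rw [V₀.valuation_le_one_iff, hmem, map_inv₀, map_natCast, norm_inv] at h1
    have h2 : 0 < ‖(p : PadicAlgCl p)‖ := norm_pos_iff.mpr hp0
    have h3 : 1 < ‖(p : PadicAlgCl p)‖⁻¹ := (one_lt_inv₀ h2).mpr hpn
    exact absurd h1 (not_le.mpr h3)
  obtain ⟨t, ht⟩ := H35L.conj_all p hp hin hV hV₀
  refine ⟨(i₁ : Ω →+* PadicAlgCl p).comp (t : Ω →+* Ω), fun x => ?_⟩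
  rw [← ht x, hmem]
  rfl

end SSG.LT
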