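import Mathlib

set_option linter.unusedSectionVars false

/-! # SSG/LT: uniform limits of integral polynomials in given functions -/

namespace SSG.LT

variable {C : Type} [NormedField C] {X ι : Type} [Fintype ι]

/-- `H` is a uniform limit of polynomials with integral coefficients in the functions `τ i`. -/
def Cl (τ : ι → X → C) (H : X → C) : Prop :=
  ∀ ε : ℝ, 0 < ε → ∃ Q : MvPolynomial ι C, (∀ m, ‖Q.coeff m‖ ≤ 1) ∧
    ∀ x, ‖H x - MvPolynomial.eval (fun i => τ i x) Q‖ ≤ ε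

variable [IsUltrametricDist C]

theorem int_mul {P Q : MvPolynomial ι C} (hP : ∀ m, ‖P.coeff m‖ ≤ 1) (hQ : ∀ m, ‖Q.coeff m‖ ≤ 1) (m : ι →₀ ℕ) :
    ‖(P * Q).coeff m‖ ≤ 1 := by
  classical
  rw [MvPolynomial.coeff_mul]
  refine IsUltrametricDist.norm_sum_le_of_forall_le_of_nonneg zero_le_one fun x _ => ?_
  rw [norm_mul]
  exact mul_le_one₀ (hP _) (norm_nonneg _) (hQ _)

theorem int_add {P Q : MvPolynomial ι C} (hP : ∀ m, ‖P.coeff m‖ ≤ 1) (hQ : ∀ m, ‖Q.coeff m‖ ≤ 1) (m : ι →₀ ℕ) :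
    ‖(P + Q).coeff m‖ ≤ 1 := by
  rw [MvPolynomial.coeff_add]
  exact (IsUltrametricDist.norm_add_le_max _ _).trans (max_le (hP m) (hQ m))

theorem int_C {a : C} (ha : ‖a‖ ≤ 1) (m : ι →₀ ℕ) : ‖(MvPolynomial.C a : MvPolynomial ι C).coeff m‖ ≤ 1 := by
  classical
  rw [MvPolynomial.coeff_C]
  split
  · exact ha
  · rw [norm_zero]
    exact zero_le_one

theorem int_X (i : ι) (m : ι →₀ ℕ) : ‖(MvPolynomial.X i : MvPolynomial ι C).coeff m‖ ≤ 1 := by
  classical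
  rw [MvPolynomial.coeff_X]
  split
  · rw [norm_one]
  · rw [norm_zero]
    exact zero_le_one

theorem eval_le {τ : ι → X → C} (hτ : ∀ i x, ‖τ i x‖ ≤ 1) {Q : MvPolynomial ι C} (hQ : ∀ m, ‖Q.coeff m‖ ≤ 1)
    (x : X) : ‖MvPolynomial.eval (fun i => τ i x) Q‖ ≤ 1 := by
  rw [MvPolynomial.eval_eq]
  refine IsUltrametricDist.norm_sum_le_of_forall_le_of_nonneg zero_le_one fun m _ => ?_
  rw [norm_mul]
  refine mul_le_one₀ (hQ _) (norm_nonneg _) ?_
  rw [norm_prod]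
  refine Finset.prod_le_one (fun i _ => norm_nonneg _) fun i _ => ?_
  rw [norm_pow]
  exact pow_le_one₀ (norm_nonneg _) (hτ i x)

variable {τ : ι → X → C}

theorem Cl.norm_le (hτ : ∀ i x, ‖τ i x‖ ≤ 1) {H : X → C} (h : Cl τ H) (x : X) : ‖H x‖ ≤ 1 := by
  obtain ⟨Q, hQ, h1⟩ := h 1 one_pos
  have h2 : H x = (H x - MvPolynomial.eval (fun i => τ i x) Q) + MvPolynomial.eval (fun i => τ i x) Q := by ring
  rw [h2]
  exact (IsUltrametricDist.norm_add_le_max _ _).trans (max_le (h1 x) (eval_le hτ hQ x))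

theorem Cl.const {a : C} (ha : ‖a‖ ≤ 1) : Cl τ fun _ => a := by
  intro ε hε
  refine ⟨MvPolynomial.C a, int_C ha, fun x => ?_⟩
  rw [MvPolynomial.eval_C, sub_self, norm_zero]
  exact hε.le

theorem Cl.var (i : ι) : Cl τ (τ i) := by
  intro ε hε
  refine ⟨MvPolynomial.X i, int_X i, fun x => ?_⟩
  rw [MvPolynomial.eval_X, sub_self, norm_zero]
  exact hε.le

theorem Cl.add {H K : X → C} (h : Cl τ H) (k : Cl τ K) : Cl τ fun x => H x + K x := by
  intro ε hε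
  obtain ⟨P, hP, h1⟩ := h ε hε
  obtain ⟨Q, hQ, h2⟩ := k ε hε
  refine ⟨P + Q, int_add hP hQ, fun x => ?_⟩
  rw [map_add]
  have e : H x + K x - (MvPolynomial.eval (fun i => τ i x) P + MvPolynomial.eval (fun i => τ i x) Q) =
      (H x - MvPolynomial.eval (fun i => τ i x) P) + (K x - MvPolynomial.eval (fun i => τ i x) Q) := by ring
  rw [e]
  exact (IsUltrametricDist.norm_add_le_max _ _).trans (max_le (h1 x) (h2 x))

theorem Cl.mul (hτ : ∀ i x, ‖τ i x‖ ≤ 1) {H K : X → C} (h : Cl τ H) (k : Cl τ K) : Cl τ fun x => H x * K x := by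
  intro ε hε
  obtain ⟨P, hP, h1⟩ := h ε hε
  obtain ⟨Q, hQ, h2⟩ := k ε hε
  refine ⟨P * Q, int_mul hP hQ, fun x => ?_⟩
  rw [map_mul]
  have e : H x * K x - MvPolynomial.eval (fun i => τ i x) P * MvPolynomial.eval (fun i => τ i x) Q =
      (H x - MvPolynomial.eval (fun i => τ i x) P) * K x +
        MvPolynomial.eval (fun i => τ i x) P * (K x - MvPolynomial.eval (fun i => τ i x) Q) := by ring
  rw [e]
  refine (IsUltrametricDist.norm_add_le_max _ _).trans (max_le ?_ ?_)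
  · rw [norm_mul]
    calc _ ≤ ε * 1 := mul_le_mul (h1 x) (k.norm_le hτ x) (norm_nonneg _) hε.le
      _ = ε := mul_one ε
  · rw [norm_mul]
    calc _ ≤ 1 * ε := mul_le_mul (eval_le hτ hP x) (h2 x) (norm_nonneg _) zero_le_one
      _ = ε := one_mul ε

theorem Cl.congr {H K : X → C} (h : Cl τ H) (e : ∀ x, K x = H x) : Cl τ K := by
  have : K = H := funext e
  rw [this]
  exact h

theorem Cl.smul (hτ : ∀ i x, ‖τ i x‖ ≤ 1) {H : X → C} (h : Cl τ H) {a : C} (ha : ‖a‖ ≤ 1) : Cl τ fun x => a * H x :=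
  Cl.mul hτ (Cl.const ha) h

theorem Cl.neg (hτ : ∀ i x, ‖τ i x‖ ≤ 1) {H : X → C} (h : Cl τ H) : Cl τ fun x => - H x :=
  (h.smul hτ (a := -1) (by rw [norm_neg, norm_one])).congr fun x => by ring

theorem Cl.sub (hτ : ∀ i x, ‖τ i x‖ ≤ 1) {H K : X → C} (h : Cl τ H) (k : Cl τ K) : Cl τ fun x => H x - K x :=
  (h.add (k.neg hτ)).congr fun x => by ring

theorem Cl.pow (hτ : ∀ i x, ‖τ i x‖ ≤ 1) {H : X → C} (h : Cl τ H) (n : ℕ) : Cl τ fun x => H x ^ n := by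
  induction n with
  | zero => exact (Cl.const (τ := τ) (a := 1) norm_one.le).congr fun x => pow_zero _
  | succ n ih => exact (Cl.mul hτ ih h).congr fun x => pow_succ _ _

theorem Cl.sum {κ : Type} (s : Finset κ) {H : κ → X → C} (h : ∀ k ∈ s, Cl τ (H k)) : Cl τ fun x => ∑ k ∈ s, H k x := by
  classical
  induction s using Finset.induction_on with
  | empty => exact (Cl.const (τ := τ) (a := 0) (by rw [norm_zero]; exact zero_le_one)).congr fun x => by simp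
  | insert k s hk ih =>
    refine ((h k (Finset.mem_insert_self _ _)).add (ih fun l hl => h l (Finset.mem_insert_of_mem hl))).congr fun x => ?_
    rw [Finset.sum_insert hk]

theorem Cl.lim {H : X → C} (h : ∀ ε : ℝ, 0 < ε → ∃ K : X → C, Cl τ K ∧ ∀ x, ‖H x - K x‖ ≤ ε) : Cl τ H := by
  intro ε hε
  obtain ⟨K, hK, h1⟩ := h ε hε
  obtain ⟨Q, hQ, h2⟩ := hK ε hε
  refine ⟨Q, hQ, fun x => ?_⟩
  have e : H x - MvPolynomial.eval (fun i => τ i x) Q =
      (H x - K x) + (K x - MvPolynomial.eval (fun i => τ i x) Q) := by ring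
  rw [e]
  exact (IsUltrametricDist.norm_add_le_max _ _).trans (max_le (h1 x) (h2 x))

/-- The inverse of `1 + (small)`. -/
theorem Cl.inv (hτ : ∀ i x, ‖τ i x‖ ≤ 1) {H : X → C} (h : Cl τ H) {ρ : ℝ} (hρ : ρ < 1) (hb : ∀ x, ‖H x‖ ≤ ρ) :
    Cl τ fun x => (1 + H x)⁻¹ := by
  rcases isEmpty_or_nonempty X with hX | ⟨⟨x₀⟩⟩
  · intro ε _
    exact ⟨0, fun m => by simp, fun x => (hX.false x).elim⟩
  have hρ0 : 0 ≤ ρ := (norm_nonneg _).trans (hb x₀)
  refine Cl.lim fun ε hε => ?_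
  obtain ⟨n, hn⟩ := exists_pow_lt_of_lt_one hε hρ
  refine ⟨fun x => ∑ k ∈ Finset.range n, (-H x) ^ k, Cl.sum _ fun k _ => (h.neg hτ).pow hτ k, fun x => ?_⟩
  have h1 : ‖1 + H x‖ = 1 := by
    have h2 : ‖H x‖ < ‖(1 : C)‖ := by rw [norm_one]; exact (hb x).trans_lt hρ
    rw [IsUltrametricDist.norm_add_eq_max_of_norm_ne_norm h2.ne', max_eq_left h2.le, norm_one]
  have h0 : 1 + H x ≠ 0 := by
    intro h0
    rw [h0, norm_zero] at h1
    exact zero_ne_one h1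
  have h2 : (1 + H x) * ∑ k ∈ Finset.range n, (-H x) ^ k = 1 - (-H x) ^ n := by
    have := mul_neg_geom_sum (-H x) n
    rwa [sub_neg_eq_add] at this
  have h3 : (1 + H x)⁻¹ - ∑ k ∈ Finset.range n, (-H x) ^ k = (1 + H x)⁻¹ * (-H x) ^ n := by
    have h4 : ∑ k ∈ Finset.range n, (-H x) ^ k = (1 + H x)⁻¹ * (1 - (-H x) ^ n) := by
      rw [← h2, ← mul_assoc, inv_mul_cancel₀ h0, one_mul]
    rw [h4]
    ring
  rw [h3, norm_mul, norm_inv, h1, inv_one, one_mul, norm_pow, norm_neg]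
  exact (pow_le_pow_left₀ (norm_nonneg _) (hb x) n).trans hn.le

end SSG.LT
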