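import Mathlib

set_option linter.unusedSectionVars false

/-! # SSG/LT: values of power series with integral coefficients -/

namespace SSG.LT

variable {C : Type} [NormedField C] [IsUltrametricDist C] [CompleteSpace C]

/-- The value of the power series with coefficients `a`. -/
noncomputable def sv (a : ℕ → C) (z : C) : C := ∑' n, a n * z ^ n

theorem sv_summable {a : ℕ → C} (ha : ∀ n, ‖a n‖ ≤ 1) {z : C} (hz : ‖z‖ < 1) :
    Summable fun n => ‖a n * z ^ n‖ := by
  refine Summable.of_nonneg_of_le (fun n => norm_nonneg _) (fun n => ?_)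
    (summable_geometric_of_lt_one (norm_nonneg z) hz)
  rw [norm_mul, norm_pow]
  exact mul_le_of_le_one_left (by positivity) (ha n)

theorem norm_tsum_le_of {f : ℕ → C} (hf : Summable f) {c : ℝ} (hc : 0 ≤ c) (h : ∀ n, ‖f n‖ ≤ c) : ‖∑' n, f n‖ ≤ c := by
  have h1 := hf.hasSum.tendsto_sum_nat
  refine le_of_tendsto h1.norm (Filter.Eventually.of_forall fun n => ?_)
  exact IsUltrametricDist.norm_sum_le_of_forall_le_of_nonneg hc fun i _ => h i

theorem tail_aux {f : ℕ → C} (hs : Summable f) (n : ℕ) {c : ℝ} (hc : 0 ≤ c) (h : ∀ k, ‖f (k + n)‖ ≤ c) :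
    ‖(∑' k, f k) - ∑ k ∈ Finset.range n, f k‖ ≤ c := by
  have h1 := hs.sum_add_tsum_nat_add n
  have h3 : Summable (fun k => f (k + n)) := (summable_nat_add_iff (f := f) n).2 hs
  have h2 : (∑' k, f k) - ∑ k ∈ Finset.range n, f k = ∑' k, f (k + n) := by
    rw [sub_eq_iff_eq_add']
    exact h1.symm
  rw [h2]
  exact norm_tsum_le_of h3 hc h

/-- Truncation. -/
theorem sv_trunc {a : ℕ → C} (ha : ∀ n, ‖a n‖ ≤ 1) {z : C} (hz : ‖z‖ < 1) (n : ℕ) :
    ‖sv a z - ∑ k ∈ Finset.range n, a k * z ^ k‖ ≤ ‖z‖ ^ n := by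
  have hs : Summable fun k => a k * z ^ k := (sv_summable ha hz).of_norm
  refine tail_aux hs n (by positivity) fun k => ?_
  show ‖a (k + n) * z ^ (k + n)‖ ≤ ‖z‖ ^ n
  rw [pow_add, norm_mul, norm_mul, norm_pow, norm_pow]
  have h3 : ‖z‖ ^ k ≤ 1 := pow_le_one₀ (norm_nonneg _) hz.le
  calc ‖a (k + n)‖ * (‖z‖ ^ k * ‖z‖ ^ n) ≤ 1 * (1 * ‖z‖ ^ n) := by
        refine mul_le_mul (ha _) ?_ (by positivity) zero_le_one
        exact mul_le_mul_of_nonneg_right h3 (by positivity)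
    _ = ‖z‖ ^ n := by rw [one_mul, one_mul]

theorem sv_le_one {a : ℕ → C} (ha : ∀ n, ‖a n‖ ≤ 1) {z : C} (hz : ‖z‖ < 1) : ‖sv a z‖ ≤ 1 := by
  have h := sv_trunc ha hz 0
  simpa using h

/-- Divisible by `X ^ n`. -/
theorem sv_dvd {a : ℕ → C} (ha : ∀ n, ‖a n‖ ≤ 1) {z : C} (hz : ‖z‖ < 1) {n : ℕ} (h0 : ∀ k < n, a k = 0) :
    ‖sv a z‖ ≤ ‖z‖ ^ n := by
  have h := sv_trunc ha hz n
  rw [Finset.sum_eq_zero (fun k hk => by rw [h0 k (Finset.mem_range.1 hk), zero_mul]), sub_zero] at h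
  exact h

/-- A Lipschitz estimate. -/
theorem sv_lip {a : ℕ → C} (ha : ∀ n, ‖a n‖ ≤ 1) (h0 : ∀ k < 2, a k = 0) {z z' : C} {ρ : ℝ} (hρ0 : 0 ≤ ρ)
    (hρ : ρ < 1) (hz : ‖z‖ ≤ ρ) (hz' : ‖z'‖ ≤ ρ) : ‖sv a z - sv a z'‖ ≤ ρ * ‖z - z'‖ := by
  have hs : Summable fun k => a k * z ^ k := (sv_summable ha (hz.trans_lt hρ)).of_norm
  have hs' : Summable fun k => a k * z' ^ k := (sv_summable ha (hz'.trans_lt hρ)).of_norm
  unfold sv
  rw [← hs.tsum_sub hs']
  refine norm_tsum_le_of (hs.sub hs') (by positivity) fun k => ?_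
  rw [← mul_sub, norm_mul]
  by_cases hk : k < 2
  · rw [h0 k hk, norm_zero, zero_mul]
    positivity
  · obtain ⟨l, rfl⟩ : ∃ l, k = l + 2 := ⟨k - 2, by omega⟩
    rw [← geom_sum₂_mul, norm_mul]
    have h1 : ‖∑ i ∈ Finset.range (l + 2), z ^ i * z' ^ (l + 2 - 1 - i)‖ ≤ ρ := by
      refine IsUltrametricDist.norm_sum_le_of_forall_le_of_nonneg hρ0 fun i hi => ?_
      rw [Finset.mem_range] at hi
      rw [norm_mul, norm_pow, norm_pow]
      calc ‖z‖ ^ i * ‖z'‖ ^ (l + 2 - 1 - i) ≤ ρ ^ i * ρ ^ (l + 2 - 1 - i) :=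
            mul_le_mul (pow_le_pow_left₀ (norm_nonneg _) hz _) (pow_le_pow_left₀ (norm_nonneg _) hz' _)
              (by positivity) (by positivity)
        _ = ρ ^ (l + 1) := by
            rw [← pow_add]
            congr 1
            omega
        _ ≤ ρ := by
            rw [pow_succ]
            exact mul_le_of_le_one_left hρ0 (pow_le_one₀ hρ0 hρ.le)
    calc ‖a (l + 2)‖ * (‖∑ i ∈ Finset.range (l + 2), z ^ i * z' ^ (l + 2 - 1 - i)‖ * ‖z - z'‖)
        ≤ 1 * (ρ * ‖z - z'‖) := by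
          refine mul_le_mul (ha _) (mul_le_mul_of_nonneg_right h1 (norm_nonneg _)) (by positivity) zero_le_one
      _ = ρ * ‖z - z'‖ := one_mul _

section hom

variable {R : Type} [CommRing R] (φ : R →+* C) (hφ : ∀ r, ‖φ r‖ ≤ 1) {z : C} (hz : ‖z‖ < 1)

open PowerSeries in
/-- The evaluation as a homomorphism. -/
noncomputable def ev : R⟦X⟧ →+* C where
  toFun h := sv (fun n => φ (coeff n h)) z
  map_one' := by
    unfold sv
    rw [tsum_eq_single 0]
    · simp
    · intro n hn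
      simp [coeff_one, hn]
  map_mul' f g := by
    unfold sv
    rw [tsum_mul_tsum_eq_tsum_sum_antidiagonal_of_summable_norm
      (sv_summable (fun n => hφ (coeff n f)) hz) (sv_summable (fun n => hφ (coeff n g)) hz)]
    congr 1
    funext n
    show φ (coeff n (f * g)) * z ^ n = _
    rw [coeff_mul, map_sum, Finset.sum_mul]
    refine Finset.sum_congr rfl fun x hx => ?_
    have hx' : x.1 + x.2 = n := by simpa using hx
    rw [← hx', map_mul, pow_add]
    ring
  map_zero' := by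
    unfold sv
    simp
  map_add' f g := by
    unfold sv
    rw [← ((sv_summable (fun n => hφ (coeff n f)) hz).of_norm).tsum_add
      ((sv_summable (fun n => hφ (coeff n g)) hz).of_norm)]
    congr 1
    funext n
    show φ (coeff n (f + g)) * z ^ n = _
    rw [map_add, map_add, add_mul]

theorem ev_apply (h : PowerSeries R) : ev φ hφ hz h = sv (fun n => φ (PowerSeries.coeff n h)) z := rfl

theorem ev_X : ev φ hφ hz PowerSeries.X = z := by
  rw [ev_apply]
  unfold sv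
  rw [tsum_eq_single 1]
  · simp
  · intro n hn
    simp [PowerSeries.coeff_X, hn]

theorem ev_C (r : R) : ev φ hφ hz (PowerSeries.C r) = φ r := by
  rw [ev_apply]
  unfold sv
  rw [tsum_eq_single 0]
  · simp
  · intro n hn
    simp [PowerSeries.coeff_C, hn]

theorem ev_dvd {n : ℕ} {h : PowerSeries R} (hd : PowerSeries.X ^ n ∣ h) : ‖ev φ hφ hz h‖ ≤ ‖z‖ ^ n := by
  rw [PowerSeries.X_pow_dvd_iff] at hd
  rw [ev_apply]
  exact sv_dvd (fun n => hφ _) hz fun k hk => by rw [hd k hk, map_zero]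

/-- A polynomial in a power series. -/
theorem ev_aeval (P : Polynomial R) (f : PowerSeries R) :
    ev φ hφ hz (P.eval₂ PowerSeries.C f) = P.eval₂ φ (ev φ hφ hz f) := by
  rw [Polynomial.hom_eval₂]
  congr 1
  ext r
  rw [RingHom.comp_apply, ev_C]

end hom

end SSG.LT
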