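import Pool.Agent.Lib.SSG.LT.FC
import Pool.Agent.Lib.SSG.LT.PS

set_option linter.unusedSectionVars false

/-! # SSG/LT: power series in a function of the class -/

namespace SSG.LT

variable {C : Type} [NormedField C] {X ι : Type} [Fintype ι] [IsUltrametricDist C] [CompleteSpace C]
  {τ : ι → X → C}

theorem Cl.sv (hτ : ∀ i x, ‖τ i x‖ ≤ 1) {H : X → C} (h : Cl τ H) {ρ : ℝ} (hρ : ρ < 1)
    (hb : ∀ x, ‖H x‖ ≤ ρ) {a : ℕ → C} (ha : ∀ n, ‖a n‖ ≤ 1) : Cl τ fun x => sv a (H x) := by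
  refine Cl.lim fun ε hε => ?_
  rcases isEmpty_or_nonempty X with hX | ⟨⟨x₀⟩⟩
  · exact ⟨fun _ => 0, Cl.const (by rw [norm_zero]; exact zero_le_one), fun x => (hX.false x).elim⟩
  have hρ0 : 0 ≤ ρ := (norm_nonneg _).trans (hb x₀)
  obtain ⟨n, hn⟩ := exists_pow_lt_of_lt_one hε hρ
  refine ⟨fun x => ∑ k ∈ Finset.range n, a k * H x ^ k, Cl.sum _ fun k _ => (h.pow hτ k).smul hτ (ha k), fun x => ?_⟩
  exact (sv_trunc ha ((hb x).trans_lt hρ) n).trans ((pow_le_pow_left₀ (norm_nonneg _) (hb x) n).trans hn.le)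

/-- `a` without the terms of degree `0` and `1`. -/
noncomputable def a2 (a : ℕ → C) (n : ℕ) : C := if n < 2 then 0 else a n

theorem a2_le {a : ℕ → C} (ha : ∀ n, ‖a n‖ ≤ 1) (n : ℕ) : ‖a2 a n‖ ≤ 1 := by
  unfold a2
  split
  · rw [norm_zero]
    exact zero_le_one
  · exact ha n

theorem a2_lt {a : ℕ → C} : ∀ k < 2, a2 a k = 0 := fun k hk => if_pos hk

theorem sv_a2 {a : ℕ → C} (ha : ∀ n, ‖a n‖ ≤ 1) (h0 : a 0 = 0) (h1 : a 1 = 1) {z : C} (hz : ‖z‖ < 1) :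
    LT.sv a z = z + LT.sv (a2 a) z := by
  have hs : Summable fun k => a k * z ^ k := (sv_summable ha hz).of_norm
  have hs' : Summable fun k => a2 a k * z ^ k := (sv_summable (a2_le ha) hz).of_norm
  have e1 := hs.sum_add_tsum_nat_add 2
  have e2 := hs'.sum_add_tsum_nat_add 2
  have e3 : ∑ k ∈ Finset.range 2, a k * z ^ k = z := by
    rw [Finset.sum_range_succ, Finset.sum_range_one, h0, h1]
    ring
  have e4 : ∑ k ∈ Finset.range 2, a2 a k * z ^ k = 0 :=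
    Finset.sum_eq_zero fun k hk => by rw [a2_lt k (Finset.mem_range.1 hk), zero_mul]
  have e5 : (∑' k, a2 a (k + 2) * z ^ (k + 2)) = ∑' k, a (k + 2) * z ^ (k + 2) := by
    congr 1
  rw [e3] at e1
  rw [e4, zero_add, e5] at e2
  unfold LT.sv
  rw [← e1, ← e2]

theorem sv_inj_aux {a : ℕ → C} (ha : ∀ n, ‖a n‖ ≤ 1) (h0 : a 0 = 0) {z : C} (hz : ‖z‖ < 1) :
    ‖LT.sv a z‖ ≤ ‖z‖ := by
  have h := sv_dvd ha hz (n := 1) (fun k hk => by
    have : k = 0 := by omega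
    rw [this, h0])
  rwa [pow_one] at h

/-- `z + ...` is isometric. -/
theorem sv_isom {a : ℕ → C} (ha : ∀ n, ‖a n‖ ≤ 1) (h0 : a 0 = 0) (h1 : a 1 = 1) {z z' : C} (hz : ‖z‖ < 1)
    (hz' : ‖z'‖ < 1) : ‖LT.sv a z - LT.sv a z'‖ = ‖z - z'‖ := by
  set ρ : ℝ := max ‖z‖ ‖z'‖ with hρ
  have hρ1 : ρ < 1 := max_lt hz hz'
  have hρ0 : 0 ≤ ρ := (norm_nonneg z).trans (le_max_left _ _)
  have h2 := sv_lip (a2_le ha) (a2_lt (a := a)) hρ0 hρ1 (le_max_left _ _) (le_max_right ‖z‖ ‖z'‖)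
  rw [sv_a2 ha h0 h1 hz, sv_a2 ha h0 h1 hz']
  have e : z + LT.sv (a2 a) z - (z' + LT.sv (a2 a) z') = (z - z') + (LT.sv (a2 a) z - LT.sv (a2 a) z') := by ring
  rw [e]
  by_cases h3 : z = z'
  · rw [h3]
    simp
  have h4 : 0 < ‖z - z'‖ := norm_pos_iff.2 (sub_ne_zero.2 h3)
  have h5 : ‖LT.sv (a2 a) z - LT.sv (a2 a) z'‖ < ‖z - z'‖ := by
    refine h2.trans_lt ?_
    calc ρ * ‖z - z'‖ < 1 * ‖z - z'‖ := mul_lt_mul_of_pos_right hρ1 h4
      _ = ‖z - z'‖ := one_mul _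
  rw [IsUltrametricDist.norm_add_eq_max_of_norm_ne_norm h5.ne', max_eq_left h5.le]

/-- The inverse of a power series `z + ...`. -/
theorem Cl.of_sv (hτ : ∀ i x, ‖τ i x‖ ≤ 1) {H : X → C} {ρ : ℝ} (hρ : ρ < 1)
    (hb : ∀ x, ‖H x‖ ≤ ρ) {a : ℕ → C} (ha : ∀ n, ‖a n‖ ≤ 1) (h0 : a 0 = 0) (h1 : a 1 = 1)
    (h : Cl τ fun x => LT.sv a (H x)) : Cl τ H := by
  rcases isEmpty_or_nonempty X with hX | ⟨⟨x₀⟩⟩
  · intro ε _
    exact ⟨0, fun m => by simp, fun x => (hX.false x).elim⟩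
  have hρ0 : 0 ≤ ρ := (norm_nonneg _).trans (hb x₀)
  have key : ∀ n : ℕ, ∃ K : X → C, Cl τ K ∧ (∀ x, ‖K x‖ ≤ ρ) ∧ ∀ x, ‖H x - K x‖ ≤ ρ ^ n := by
    intro n
    induction n with
    | zero =>
      refine ⟨fun _ => 0, Cl.const (by rw [norm_zero]; exact zero_le_one), fun x => ?_, fun x => ?_⟩
      · rw [norm_zero]
        exact hρ0
      · rw [sub_zero, pow_zero]
        exact (hb x).trans hρ.le
    | succ n ih =>
      obtain ⟨K, hK, hKb, hd⟩ := ih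
      refine ⟨fun x => LT.sv a (H x) - LT.sv (a2 a) (K x), h.sub hτ (Cl.sv hτ hK hρ hKb (a2_le ha)),
        fun x => ?_, fun x => ?_⟩
      · have hx := (hb x).trans_lt hρ
        have hk := (hKb x).trans_lt hρ
        simp only [sub_eq_add_neg]
        refine (IsUltrametricDist.norm_add_le_max _ _).trans (max_le ?_ ?_)
        · exact (sv_inj_aux ha h0 hx).trans (hb x)
        · rw [norm_neg]
          refine (sv_dvd (a2_le ha) hk (n := 1) fun k hk' => a2_lt k (by omega)).trans ?_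
          rw [pow_one]
          exact hKb x
      · have hx := (hb x).trans_lt hρ
        have e : H x - (LT.sv a (H x) - LT.sv (a2 a) (K x)) = -(LT.sv (a2 a) (H x) - LT.sv (a2 a) (K x)) := by
          rw [sv_a2 ha h0 h1 hx]
          ring
        rw [e, norm_neg, pow_succ, mul_comm]
        exact (sv_lip (a2_le ha) (a2_lt (a := a)) hρ0 hρ (hb x) (hKb x)).trans
          (mul_le_mul_of_nonneg_left (hd x) hρ0)
  refine Cl.lim fun ε hε => ?_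
  obtain ⟨n, hn⟩ := exists_pow_lt_of_lt_one hε hρ
  obtain ⟨K, hK, -, hd⟩ := key n
  exact ⟨K, hK, fun x => (hd x).trans hn.le⟩

end SSG.LT
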