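import Mathlib
import Pool.Agent.Lib.H16S.A3
import Pool.Agent.Lib.H55K.G1

/-! # SSG/LT: the function v = w / t ^ 3 and translation by a point outside the kernel of reduction -/

open NumberField IsDedekindDomain WeierstrassCurve

namespace SSG.LT

open H55P (IQ Pt)
open H35P (WAB Ker tt)
open H55K

section defs

variable {k : Type} [Field k] {W : WeierstrassCurve k}

/-- `v = y ^ 2 / x ^ 3` (`1` at the origin): `w = 1 / y = t ^ 3 v`, `t = x / y`. -/
noncomputable def vv : W.toAffine.Point → k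
  | .zero => 1
  | .some x y _ => y ^ 2 / x ^ 3

/-- The numerator of `x(R + T)`. -/
def gN (a b x y t v : k) : k :=
  a * t ^ 2 * v ^ 2 + b * t ^ 4 * v ^ 3 - 2 * y * t * v ^ 2 + y ^ 2 * t ^ 4 * v ^ 3 + 2 * x * v - x ^ 2 * t ^ 2 * v ^ 2

/-- The numerator of `(x(R + T) - x(T)) / t`. -/
def gM (a b x y t v : k) : k :=
  a * t * v ^ 2 + b * t ^ 3 * v ^ 3 - 2 * y * v ^ 2 + y ^ 2 * t ^ 3 * v ^ 3 + 3 * x ^ 2 * t * v ^ 2 -
    2 * x ^ 3 * t ^ 3 * v ^ 3

/-- `x(R + T) - x(T)` as a function of `t = t(R)`, `v = v(R)`; `(x, y) = T`. -/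
noncomputable def gx (a b x y t v : k) : k := gN a b x y t v * v⁻¹ * ((1 - x * t ^ 2 * v)⁻¹) ^ 2 - 2 * x

/-- `y(R + T)`. -/
noncomputable def gy (a b x y t v : k) : k :=
  -((1 - y * t ^ 3 * v) * gM a b x y t v * v⁻¹ * ((1 - x * t ^ 2 * v)⁻¹) ^ 3 + y)

end defs

variable {F : Type} [Field F] [NumberField F] [IQ F] {A B : F} {Ω : Type} [Field Ω] [DecidableEq Ω]
  [Algebra F Ω] {V : ValuationSubring Ω}

/-! Chunk V0 (S/M). PROOF. P = 0: tt = 0, vv = 1. P = some x y: V x > 1, V y ^ 2 = V x ^ 3 (H35P.val_y, H55K.tt_val), so x, y ≠ 0; tt = x / y, vv = y ^ 2 / x ^ 3; x ^ 3 + A x + B = y ^ 2 (H55K.eqn, eqnA): divide by x ^ 3 and use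
t ^ 4 v ^ 2 = 1 / x ^ 2, t ^ 6 v ^ 3 = 1 / x ^ 3. -/

omit [NumberField F] [IQ F] [DecidableEq Ω] in
theorem v0_vv {P : Pt (WAB A B) Ω} (h0 : P ≠ 0) : vv P = yc P ^ 2 / xc P ^ 3 := by
  rcases P with _ | ⟨x, y, h⟩
  · exact absurd rfl h0
  · rfl

omit [NumberField F] [IQ F] in
theorem v0_ne (hV : GV A B V) {P : Pt (WAB A B) Ω} (hP : Ker V P) (h0 : P ≠ 0) : xc P ≠ 0 ∧ yc P ≠ 0 := by
  obtain ⟨h1, h2, h3⟩ := tt_val hV hP h0
  have hx1 : 1 < V.valuation (xc P) := (ker_iff V h0).1 hP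
  constructor
  · intro h
    rw [h, map_zero] at hx1
    exact absurd hx1 (not_lt.2 zero_le)
  · intro h
    rw [h, map_zero, mul_zero] at h2
    exact zero_ne_one h2

theorem v0_eq (hV : GV A B V) {P : Pt (WAB A B) Ω} (hP : Ker V P) :
    vv P = 1 + algebraMap F Ω A * tt P ^ 4 * vv P ^ 2 + algebraMap F Ω B * tt P ^ 6 * vv P ^ 3 ∧ V.valuation (vv P) = 1 ∧
      H16S.ww P = tt P ^ 3 * vv P := by
  by_cases h0 : P = 0
  · subst h0
    have e : tt (0 : Pt (WAB A B) Ω) = 0 := by rw [tt_eq, xc_zero, zero_div]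
    have e1 : vv (0 : Pt (WAB A B) Ω) = 1 := rfl
    unfold H16S.ww
    rw [e, e1, yc_zero, inv_zero, map_one]
    refine ⟨by ring, rfl, by ring⟩
  · obtain ⟨hx0, hy0⟩ := v0_ne hV hP h0
    obtain ⟨h1, h2, h3⟩ := tt_val hV hP h0
    have htt : tt P = xc P / yc P := tt_eq P
    have hvv : vv P = yc P ^ 2 / xc P ^ 3 := v0_vv h0
    have heq := eqnA h0
    refine ⟨?_, ?_, ?_⟩
    · rw [hvv, htt]
      field_simp
      linear_combination heq
    · rw [hvv, map_div₀, map_pow, map_pow]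
      have e1 : V.valuation (yc P) ^ 2 = V.valuation (xc P) ^ 3 := by
        have hvt : V.valuation (tt P) ≠ 0 := by
          rw [Valuation.ne_zero_iff, htt]
          exact div_ne_zero hx0 hy0
        have e2 : V.valuation (tt P) ^ 6 * V.valuation (yc P) ^ 2 = V.valuation (tt P) ^ 6 * V.valuation (xc P) ^ 3 := by
          calc V.valuation (tt P) ^ 6 * V.valuation (yc P) ^ 2 = (V.valuation (tt P) ^ 3 * V.valuation (yc P)) ^ 2 := by
                rw [mul_pow, ← pow_mul]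
            _ = 1 := by rw [h2, one_pow]
            _ = (V.valuation (tt P) ^ 2 * V.valuation (xc P)) ^ 3 := by rw [h1, one_pow]
            _ = V.valuation (tt P) ^ 6 * V.valuation (xc P) ^ 3 := by rw [mul_pow, ← pow_mul]
        exact mul_left_cancel₀ (pow_ne_zero 6 hvt) e2
      rw [e1]
      exact div_self (pow_ne_zero 3 ((Valuation.ne_zero_iff _).2 hx0))
    · unfold H16S.ww
      rw [hvv, htt]
      field_simp

theorem v0_xy (hV : GV A B V) {P : Pt (WAB A B) Ω} (hP : Ker V P) (h0 : P ≠ 0) :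
    tt P ≠ 0 ∧ vv P ≠ 0 ∧ xc P = (tt P ^ 2 * vv P)⁻¹ ∧ yc P = (tt P ^ 3 * vv P)⁻¹ := by
  obtain ⟨hx0, hy0⟩ := v0_ne hV hP h0
  have htt : tt P = xc P / yc P := tt_eq P
  have hvv : vv P = yc P ^ 2 / xc P ^ 3 := v0_vv h0
  rw [hvv, htt]
  refine ⟨div_ne_zero hx0 hy0, div_ne_zero (pow_ne_zero 2 hy0) (pow_ne_zero 3 hx0), ?_, ?_⟩
  · field_simp
  · field_simp

end SSG.LT
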