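import Mathlib
import Pool.Agent.Lib.SSG.LT.V0
import Pool.Agent.Lib.SSG.LT.FC2

/-! # SSG/LT: families of points in the kernel of reduction whose parameter is in the class (definition) -/

open NumberField IsDedekindDomain WeierstrassCurve

namespace SSG.LT

open H55P (IQ Pt)
open H35P (WAB Ker tt)
open H55K

/-- `P x` is in the kernel of reduction, its parameter is uniformly small and a uniform limit of integral polynomials in the
functions `τ`. -/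
structure PC {C : Type} [NormedField C] {X ι : Type} [Fintype ι] {F : Type} [Field F] {A B : F} {Ω : Type} [Field Ω]
    [Algebra F Ω] (V : ValuationSubring Ω) (i : Ω →+* C) (τ : ι → X → C) (P : X → Pt (WAB A B) Ω) : Prop where
  ker : ∀ x, Ker V (P x)
  small : ∃ ρ : ℝ, ρ < 1 ∧ ∀ x, ‖i (tt (P x))‖ ≤ ρ
  cl : Cl τ fun x => i (tt (P x))

variable {C : Type} [NormedField C] [IsUltrametricDist C] [CompleteSpace C] {X ι : Type} [Fintype ι] {τ : ι → X → C}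

omit [CompleteSpace C] in
theorem pc_add {x y : C} {r : ℝ} (hx : ‖x‖ ≤ r) (hy : ‖y‖ ≤ r) : ‖x + y‖ ≤ r :=
  (IsUltrametricDist.norm_add_le_max _ _).trans (max_le hx hy)

omit [CompleteSpace C] in
theorem pc_sub {x y : C} {r : ℝ} (hx : ‖x‖ ≤ r) (hy : ‖y‖ ≤ r) : ‖x - y‖ ≤ r := by
  rw [sub_eq_add_neg]
  exact pc_add hx (by rwa [norm_neg])

omit [IsUltrametricDist C] [CompleteSpace C] in
theorem pc_mul {x y : C} {r : ℝ} (hx : ‖x‖ ≤ 1) (hy : ‖y‖ ≤ r) : ‖x * y‖ ≤ r := by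
  rw [norm_mul]
  calc ‖x‖ * ‖y‖ ≤ 1 * ‖y‖ := mul_le_mul_of_nonneg_right hx (norm_nonneg y)
    _ ≤ r := by rwa [one_mul]

omit [IsUltrametricDist C] [CompleteSpace C] in
theorem pc_pow {x : C} (hx : ‖x‖ ≤ 1) (n : ℕ) : ‖x ^ n‖ ≤ 1 := by
  rw [norm_pow]
  exact pow_le_one₀ (norm_nonneg _) hx

/-! Chunk PC1 (S/M). PROOF. v₀ = 1, v_(n+1) = 1 + a t^4 v_n^2 + b t^6 v_n^3: all in the class with norm ≤ 1, ‖v - v_(n+1)‖ ≤ ρ ‖v - v_n‖ (v^2 - v_n^2 = (v - v_n)(v + v_n), ..), so ‖v - v_n‖ ≤ ρ^n: Cl.lim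
(copy of Cl.of_sv in FC2.lean). -/
theorem cl_v (hτ : ∀ i x, ‖τ i x‖ ≤ 1) {t v : X → C} {a b : C} (ha : ‖a‖ ≤ 1) (hb : ‖b‖ ≤ 1) (ht : Cl τ t) {ρ : ℝ} (hρ : ρ < 1)
    (hs : ∀ x, ‖t x‖ ≤ ρ) (hv : ∀ x, ‖v x‖ ≤ 1) (h : ∀ x, v x = 1 + a * t x ^ 4 * v x ^ 2 + b * t x ^ 6 * v x ^ 3) :
    Cl τ v := by
  rcases isEmpty_or_nonempty X with hX | ⟨⟨x₀⟩⟩
  · intro ε _
    exact ⟨0, fun m => by simp, fun x => (hX.false x).elim⟩
  have hρ0 : 0 ≤ ρ := (norm_nonneg _).trans (hs x₀)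
  have ht1 : ∀ x, ‖t x‖ ≤ 1 := fun x => (hs x).trans hρ.le
  have key : ∀ n : ℕ, ∃ K : X → C, Cl τ K ∧ (∀ x, ‖K x‖ ≤ 1) ∧ ∀ x, ‖v x - K x‖ ≤ ρ ^ n := by
    intro n
    induction n with
    | zero =>
      refine ⟨fun _ => 1, Cl.const norm_one.le, fun x => norm_one.le, fun x => ?_⟩
      rw [pow_zero]
      exact pc_sub (hv x) norm_one.le
    | succ n ih =>
      obtain ⟨K, hK, hKb, hd⟩ := ih
      have hcl : Cl τ fun x => 1 + (a * (t x ^ 4 * K x ^ 2) + b * (t x ^ 6 * K x ^ 3)) :=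
        (Cl.const norm_one.le).add (((Cl.mul hτ (ht.pow hτ 4) (hK.pow hτ 2)).smul hτ ha).add
          ((Cl.mul hτ (ht.pow hτ 6) (hK.pow hτ 3)).smul hτ hb))
      refine ⟨_, hcl, fun x => hcl.norm_le hτ x, fun x => ?_⟩
      have e : v x - (1 + (a * (t x ^ 4 * K x ^ 2) + b * (t x ^ 6 * K x ^ 3))) =
          (a * t x ^ 3 * (v x + K x) + b * t x ^ 5 * (v x ^ 2 + v x * K x + K x ^ 2)) * (t x * (v x - K x)) := by
        have h2 := h x
        linear_combination h2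
      rw [e, pow_succ' ρ n]
      refine pc_mul (pc_add ?_ ?_) ?_
      · exact pc_mul (pc_mul ha (pc_pow (ht1 x) 3)) (pc_add (hv x) (hKb x))
      · exact pc_mul (pc_mul hb (pc_pow (ht1 x) 5)) (pc_add (pc_add (pc_pow (hv x) 2) (pc_mul (hv x) (hKb x))) (pc_pow (hKb x) 2))
      · rw [norm_mul]
        exact mul_le_mul (hs x) (hd x) (norm_nonneg _) hρ0
  refine Cl.lim fun ε hε => ?_
  obtain ⟨n, hn⟩ := exists_pow_lt_of_lt_one hε hρ
  obtain ⟨K, hK, -, hd⟩ := key n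
  exact ⟨K, hK, fun x => (hd x).trans hn.le⟩

end SSG.LT
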