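import Mathlib
import Pool.Agent.Lib.SSG.LT.PC

/-! # SSG/LT: sums of points -/

open NumberField IsDedekindDomain WeierstrassCurve

namespace SSG.LT

open H55P (IQ Pt)
open H35P (WAB Ker tt)
open H55K

variable {C : Type} [NormedField C] [IsUltrametricDist C] [CompleteSpace C] {X ι : Type} [Fintype ι] {τ : ι → X → C}
  {F : Type} [Field F] [NumberField F] [IQ F] {A B : F} {Ω : Type} [Field Ω] [DecidableEq Ω]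
  [Algebra F Ω] {V : ValuationSubring Ω}

/-- `1 + H` with `H` small. -/
theorem pa1_ne {H : C} {ρ : ℝ} (hρ : ρ < 1) (h : ‖H‖ ≤ ρ) : ‖1 + H‖ = 1 ∧ 1 + H ≠ 0 := by
  have h1 : ‖1 + H‖ = 1 := by
    have h2 : ‖H‖ < ‖(1 : C)‖ := by
      rw [norm_one]
      exact h.trans_lt hρ
    rw [IsUltrametricDist.norm_add_eq_max_of_norm_ne_norm h2.ne', max_eq_left h2.le, norm_one]
  refine ⟨h1, fun h0 => ?_⟩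
  rw [h0, norm_zero] at h1
  exact zero_ne_one h1

/-! Chunk PA1 (S/M). PROOF. In the class: d1 = 1 + H, H = -a t₂ (w₁ + w₂) - b (..), ‖H‖ ≤ ρ; n1; lam = n1 (1 + H)⁻¹ (Ring.inverse_eq_inv), ‖lam‖ ≤ ρ; nu; d2 = 1 + (a lam^2 + b lam^3); addt. Cl.add, Cl.mul, Cl.smul, Cl.inv. ‖2‖, ‖3‖ ≤ 1. -/
theorem cl_addt (hτ : ∀ i x, ‖τ i x‖ ≤ 1) {t₁ w₁ t₂ w₂ : X → C} {a b : C} (ha : ‖a‖ ≤ 1) (hb : ‖b‖ ≤ 1)
    (ht₁ : Cl τ t₁) (hw₁ : Cl τ w₁) (ht₂ : Cl τ t₂) (hw₂ : Cl τ w₂) {ρ : ℝ} (hρ : ρ < 1)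
    (s₁ : ∀ x, ‖t₁ x‖ ≤ ρ) (s₂ : ∀ x, ‖w₁ x‖ ≤ ρ) (s₃ : ∀ x, ‖t₂ x‖ ≤ ρ) (s₄ : ∀ x, ‖w₂ x‖ ≤ ρ) :
    (Cl τ fun x => H16S.addt a b (t₁ x) (w₁ x) (t₂ x) (w₂ x)) ∧
      (∀ x, H16S.d1 a b (t₁ x) (w₁ x) (t₂ x) (w₂ x) ≠ 0) ∧ ∀ x, H16S.d2 a b (t₁ x) (w₁ x) (t₂ x) (w₂ x) ≠ 0 := by
  have n2 : ‖(2 : C)‖ ≤ 1 := by
    have := IsUltrametricDist.norm_natCast_le_one C 2
    simpa using this
  have n3 : ‖(3 : C)‖ ≤ 1 := by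
    have := IsUltrametricDist.norm_natCast_le_one C 3
    simpa using this
  have b1 : ∀ x, ‖t₁ x‖ ≤ 1 := fun x => (s₁ x).trans hρ.le
  have b2 : ∀ x, ‖w₁ x‖ ≤ 1 := fun x => (s₂ x).trans hρ.le
  have b3 : ∀ x, ‖t₂ x‖ ≤ 1 := fun x => (s₃ x).trans hρ.le
  have b4 : ∀ x, ‖w₂ x‖ ≤ 1 := fun x => (s₄ x).trans hρ.le
  -- d1
  have c1 : Cl τ fun x => -(a * (t₂ x * (w₁ x + w₂ x)) + b * (w₁ x ^ 2 + w₁ x * w₂ x + w₂ x ^ 2)) :=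
    (((Cl.mul hτ ht₂ (hw₁.add hw₂)).smul hτ ha).add ((((hw₁.pow hτ 2).add (Cl.mul hτ hw₁ hw₂)).add (hw₂.pow hτ 2)).smul hτ hb)).neg hτ
  have e1 : ∀ x, ‖-(a * (t₂ x * (w₁ x + w₂ x)) + b * (w₁ x ^ 2 + w₁ x * w₂ x + w₂ x ^ 2))‖ ≤ ρ := by
    intro x
    rw [norm_neg]
    refine pc_add (pc_mul ha (pc_mul (b3 x) (pc_add (s₂ x) (s₄ x)))) (pc_mul hb (pc_add (pc_add ?_ (pc_mul (b2 x) (s₄ x))) ?_))
    · rw [pow_two]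
      exact pc_mul (b2 x) (s₂ x)
    · rw [pow_two]
      exact pc_mul (b4 x) (s₄ x)
  have f1 : ∀ x, H16S.d1 a b (t₁ x) (w₁ x) (t₂ x) (w₂ x) = 1 + -(a * (t₂ x * (w₁ x + w₂ x)) + b * (w₁ x ^ 2 + w₁ x * w₂ x + w₂ x ^ 2)) := by
    intro x
    unfold H16S.d1
    ring
  have g1 := Cl.inv hτ c1 hρ e1
  -- lam
  have c2 : Cl τ fun x => t₁ x ^ 2 + t₁ x * t₂ x + t₂ x ^ 2 + a * w₁ x ^ 2 :=
    (((ht₁.pow hτ 2).add (Cl.mul hτ ht₁ ht₂)).add (ht₂.pow hτ 2)).add ((hw₁.pow hτ 2).smul hτ ha)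
  have hlam : Cl τ fun x => H16S.lam a b (t₁ x) (w₁ x) (t₂ x) (w₂ x) := by
    refine (Cl.mul hτ c2 g1).congr fun x => ?_
    unfold H16S.lam H16S.n1
    rw [Ring.inverse_eq_inv', f1 x]
  have elam : ∀ x, ‖H16S.lam a b (t₁ x) (w₁ x) (t₂ x) (w₂ x)‖ ≤ ρ := by
    intro x
    unfold H16S.lam H16S.n1
    rw [Ring.inverse_eq_inv', f1 x, mul_comm]
    refine pc_mul ?_ (pc_add (pc_add (pc_add ?_ (pc_mul (b1 x) (s₃ x))) ?_) (pc_mul ha ?_))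
    · rw [norm_inv, (pa1_ne hρ (e1 x)).1, inv_one]
    · rw [pow_two]
      exact pc_mul (b1 x) (s₁ x)
    · rw [pow_two]
      exact pc_mul (b3 x) (s₃ x)
    · rw [pow_two]
      exact pc_mul (b2 x) (s₂ x)
  have elam1 : ∀ x, ‖H16S.lam a b (t₁ x) (w₁ x) (t₂ x) (w₂ x)‖ ≤ 1 := fun x => (elam x).trans hρ.le
  -- d2
  have c3 : Cl τ fun x => a * H16S.lam a b (t₁ x) (w₁ x) (t₂ x) (w₂ x) ^ 2 + b * H16S.lam a b (t₁ x) (w₁ x) (t₂ x) (w₂ x) ^ 3 :=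
    ((hlam.pow hτ 2).smul hτ ha).add ((hlam.pow hτ 3).smul hτ hb)
  have e3 : ∀ x, ‖a * H16S.lam a b (t₁ x) (w₁ x) (t₂ x) (w₂ x) ^ 2 + b * H16S.lam a b (t₁ x) (w₁ x) (t₂ x) (w₂ x) ^ 3‖ ≤ ρ := by
    intro x
    refine pc_add (pc_mul ha ?_) (pc_mul hb ?_)
    · rw [pow_two]
      exact pc_mul (elam1 x) (elam x)
    · rw [pow_succ]
      exact pc_mul (pc_pow (elam1 x) 2) (elam x)
  have f3 : ∀ x, H16S.d2 a b (t₁ x) (w₁ x) (t₂ x) (w₂ x) =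
      1 + (a * H16S.lam a b (t₁ x) (w₁ x) (t₂ x) (w₂ x) ^ 2 + b * H16S.lam a b (t₁ x) (w₁ x) (t₂ x) (w₂ x) ^ 3) := by
    intro x
    unfold H16S.d2
    ring
  have g3 := Cl.inv hτ c3 hρ e3
  have hnu : Cl τ fun x => H16S.nu a b (t₁ x) (w₁ x) (t₂ x) (w₂ x) := (hw₁.sub hτ (Cl.mul hτ hlam ht₁)).congr fun x => rfl
  have c4 : Cl τ fun x => (2 * a) * H16S.lam a b (t₁ x) (w₁ x) (t₂ x) (w₂ x) + (3 * b) * H16S.lam a b (t₁ x) (w₁ x) (t₂ x) (w₂ x) ^ 2 :=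
    (hlam.smul hτ (pc_mul n2 ha)).add ((hlam.pow hτ 2).smul hτ (pc_mul n3 hb))
  refine ⟨((ht₁.add ht₂).add (Cl.mul hτ (Cl.mul hτ c4 hnu) g3)).congr fun x => ?_, fun x => ?_, fun x => ?_⟩
  · unfold H16S.addt
    rw [Ring.inverse_eq_inv', f3 x]
  · rw [f1 x]
    exact (pa1_ne hρ (e1 x)).2
  · rw [f3 x]
    exact (pa1_ne hρ (e3 x)).2

end SSG.LT
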