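import Mathlib
import Pool.Agent.Lib.SSG.LT.PA1
import Pool.Agent.Lib.H55K.G2

/-! # SSG/LT: sums of points -/

open NumberField IsDedekindDomain WeierstrassCurve

namespace SSG.LT

open H55P (IQ Pt)
open H35P (WAB Ker tt)
open H55K

variable {C : Type} [NormedField C] [IsUltrametricDist C] [CompleteSpace C] {X ι : Type} [Fintype ι] {τ : ι → X → C}
  {F : Type} [Field F] [NumberField F] [IQ F] {A B : F} {Ω : Type} [Field Ω] [DecidableEq Ω]
  [Algebra F Ω] {V : ValuationSubring Ω}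

/-- comparison of the values -/
theorem pa2_le {Ω C : Type} [Field Ω] [NormedField C] {V : ValuationSubring Ω} {i : Ω →+* C} (hi : ∀ x, x ∈ V ↔ ‖i x‖ ≤ 1) {x y : Ω}
    (h : V.valuation x ≤ V.valuation y) : ‖i x‖ ≤ ‖i y‖ := by
  by_cases hy : y = 0
  · rw [hy, map_zero, le_zero_iff, map_eq_zero] at h
    rw [h, hy]
  · have h1 : V.valuation (x / y) ≤ 1 := by
      rw [map_div₀]
      exact div_le_one_of_le₀ h zero_le
    have h2 := (hi _).1 ((V.valuation_le_one_iff _).1 h1)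
    rw [map_div₀, norm_div, div_le_one₀ (norm_pos_iff.2 ((map_ne_zero i).2 hy))] at h2
    exact h2

/-- the coordinate w is in the class -/
theorem pa2_ww (hτ : ∀ i x, ‖τ i x‖ ≤ 1) {i : Ω →+* C} (hi : ∀ x, x ∈ V ↔ ‖i x‖ ≤ 1) (hV : GV A B V) {P : X → Pt (WAB A B) Ω}
    (hker : ∀ x, Ker V (P x)) (hcl : Cl τ fun x => i (tt (P x))) {ρ : ℝ} (hρ : ρ < 1) (hs : ∀ x, ‖i (tt (P x))‖ ≤ ρ) :
    (Cl τ fun x => i (H16S.ww (P x))) ∧ ∀ x, ‖i (H16S.ww (P x))‖ ≤ ρ := by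
  have hv1 : ∀ x, ‖i (vv (P x))‖ ≤ 1 := fun x =>
    (hi _).1 ((V.valuation_le_one_iff _).1 (v0_eq hV (hker x)).2.1.le)
  have hv : Cl τ fun x => i (vv (P x)) := by
    refine cl_v hτ ((hi _).1 hV.a) ((hi _).1 hV.b) hcl hρ hs hv1 fun x => ?_
    have h1 := congrArg i (v0_eq hV (hker x)).1
    simp only [map_add, map_mul, map_pow, map_one] at h1
    exact h1
  have e : ∀ x, i (H16S.ww (P x)) = i (tt (P x)) ^ 3 * i (vv (P x)) := by
    intro x
    rw [(v0_eq hV (hker x)).2.2, map_mul, map_pow]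
  refine ⟨(Cl.mul hτ (hcl.pow hτ 3) hv).congr e, fun x => ?_⟩
  rw [e x]
  have e2 : i (tt (P x)) ^ 3 * i (vv (P x)) = (i (tt (P x)) ^ 2 * i (vv (P x))) * i (tt (P x)) := by ring
  rw [e2]
  exact pc_mul (pc_mul (pc_pow ((hs x).trans hρ.le) 2) (hv1 x)) (hs x)

/-! Chunk PA2 (M). PROOF. ρ = max of the two bounds (and 0). w = t^3 v (v0_eq), v in the class (cl_v mapped by i as in PC3), so i (ww P), i (ww Q) are in the class and small. cl_addt in C with a = i (algebraMap A) .. gives the class and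
d1, d2 ≠ 0 in C; i (d1 ..) = d1 (i ..), i (lam ..) = lam .. (Ring.inverse_eq_inv, map_inv₀; unfold, simp [map_add, map_mul ..]), so d1, d2 ≠ 0 in Ω and H16S.add_tw (curve W = (WAB A B)⁄Ω with its instance IsShortNF, a₄ = algebraMap A,
a₆ = algebraMap B: H55K.base_a4, base_a6; 2 ≠ 0 in Ω: hV.two) gives tt (P + Q) = addt ..; Ch P, Ch Q: H16S.ker_tw. ker: H55K.kadd; small: H55K.tt_add2 (or the formula): ‖i tt (P+Q)‖ ≤ ρ: V(tt (P+Q) - tt P - tt Q) ≤ c^2;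
simpler: norm of addt ≤ ρ: use V-valuation comparison V x ≤ V y iff ‖i x‖ ≤ ‖i y‖ (x / y ∈ V): V(tt(P+Q)) ≤ max (V tt P) (V tt Q). -/
theorem PC.add (hτ : ∀ i x, ‖τ i x‖ ≤ 1) {i : Ω →+* C} (hi : ∀ x, x ∈ V ↔ ‖i x‖ ≤ 1)
    (hV : GV A B V) {P Q : X → Pt (WAB A B) Ω} (hP : PC V i τ P) (hQ : PC V i τ Q) :
    PC V i τ fun x => P x + Q x := by
  obtain ⟨ρ₁, hρ₁, s1⟩ := hP.small
  obtain ⟨ρ₂, hρ₂, s2⟩ := hQ.small
  have hρ : max ρ₁ ρ₂ < 1 := max_lt hρ₁ hρ₂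
  have s1' : ∀ x, ‖i (tt (P x))‖ ≤ max ρ₁ ρ₂ := fun x => (s1 x).trans (le_max_left _ _)
  have s2' : ∀ x, ‖i (tt (Q x))‖ ≤ max ρ₁ ρ₂ := fun x => (s2 x).trans (le_max_right _ _)
  obtain ⟨w1, w1'⟩ := pa2_ww hτ hi hV hP.ker hP.cl hρ s1'
  obtain ⟨w2, w2'⟩ := pa2_ww hτ hi hV hQ.ker hQ.cl hρ s2'
  obtain ⟨hcl, hd1, hd2⟩ := cl_addt hτ ((hi _).1 hV.a) ((hi _).1 hV.b) hP.cl w1 hQ.cl w2 hρ s1' w1' s2' w2'
  have h2 : (2 : Ω) ≠ 0 := by
    intro h0
    have h1 := hV.two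
    rw [h0, map_zero] at h1
    exact zero_ne_one h1
  have key : ∀ x, i (tt (P x + Q x)) = H16S.addt (i (algebraMap F Ω A)) (i (algebraMap F Ω B)) (i (tt (P x))) (i (H16S.ww (P x)))
      (i (tt (Q x))) (i (H16S.ww (Q x))) := by
    intro x
    have f1 : H16S.d1 (algebraMap F Ω A) (algebraMap F Ω B) (tt (P x)) (H16S.ww (P x)) (tt (Q x)) (H16S.ww (Q x)) ≠ 0 := by
      intro h0
      apply hd1 x
      have h1 := congrArg i h0
      rw [map_zero] at h1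
      rw [← h1]
      unfold H16S.d1
      simp only [map_add, map_sub, map_mul, map_pow, map_one]
    have u1 := isUnit_iff_ne_zero.2 f1
    have f2 : H16S.d2 (algebraMap F Ω A) (algebraMap F Ω B) (tt (P x)) (H16S.ww (P x)) (tt (Q x)) (H16S.ww (Q x)) ≠ 0 := by
      intro h0
      apply hd2 x
      have h1 := congrArg i h0
      rw [map_zero] at h1
      rw [← h1]
      unfold H16S.d2
      simp only [map_add, map_mul, map_pow, map_one, H16S.map_lam i u1]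
    have u2 := isUnit_iff_ne_zero.2 f2
    have h3 := H16S.add_tw (W := (WAB A B)⁄Ω) h2 (H16S.ker_tw (gv_good hV).toIntW (hP.ker x)).1 (H16S.ker_tw (gv_good hV).toIntW (hQ.ker x)).1 f1 f2
    have h4 := congrArg i h3.2.1
    exact h4.trans (H16S.map_add' i u1 u2).1
  refine ⟨fun x => kadd hV (hP.ker x) (hQ.ker x), ⟨max ρ₁ ρ₂, hρ, fun x => ?_⟩, hcl.congr key⟩
  obtain ⟨c, hc⟩ : ∃ c, c = max (V.valuation (tt (P x))) (V.valuation (tt (Q x))) := ⟨_, rfl⟩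
  have hc1 : c < 1 := by
    rw [hc]
    exact max_lt (ttlt hV (hP.ker x)) (ttlt hV (hQ.ker x))
  have hcP : V.valuation (tt (P x)) ≤ c := by
    rw [hc]
    exact le_max_left _ _
  have hcQ : V.valuation (tt (Q x)) ≤ c := by
    rw [hc]
    exact le_max_right _ _
  have h5 := tt_add2 hV (hP.ker x) (hQ.ker x) c hcP hcQ
  have h6 : V.valuation (tt (P x + Q x)) ≤ c := by
    have e : tt (P x + Q x) = (tt (P x + Q x) - tt (P x) - tt (Q x)) + (tt (P x) + tt (Q x)) := by ring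
    rw [e]
    refine Valuation.map_add_le _ (h5.trans ?_) (Valuation.map_add_le _ hcP hcQ)
    rw [pow_two]
    exact mul_le_of_le_one_left' hc1.le
  rcases max_choice (V.valuation (tt (P x))) (V.valuation (tt (Q x))) with h7 | h7
  · rw [hc, h7] at h6
    exact (pa2_le hi h6).trans (s1' x)
  · rw [hc, h7] at h6
    exact (pa2_le hi h6).trans (s2' x)

end SSG.LT
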