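import Mathlib
import Pool.Agent.Lib.SSG.LT.V0

/-! # SSG/LT: translation by a point outside the kernel of reduction -/

open NumberField IsDedekindDomain WeierstrassCurve

namespace SSG.LT

open H55P (IQ Pt)
open H35P (WAB Ker tt)
open H55K

variable {F : Type} [Field F] [NumberField F] [IQ F] {A B : F} {Ω : Type} [Field Ω] [DecidableEq Ω]
  [Algebra F Ω] {V : ValuationSubring Ω}

/-- The algebra of the chord formula. -/
theorem cm1_alg {k : Type} [Field k] {a b x y t v s X : k} (ht : t ≠ 0) (hv : v ≠ 0)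
    (hD : 1 - x * t ^ 2 * v ≠ 0) (he : v = 1 + a * t ^ 4 * v ^ 2 + b * t ^ 6 * v ^ 3)
    (hs : s = (y - (t ^ 3 * v)⁻¹) / (x - (t ^ 2 * v)⁻¹)) (hX : X = s ^ 2 - x - (t ^ 2 * v)⁻¹) :
    X - x = gx a b x y t v ∧ -(s * (X - x) + y) = gy a b x y t v := by
  obtain ⟨D, hDd⟩ : ∃ D, D = 1 - x * t ^ 2 * v := ⟨_, rfl⟩
  rw [← hDd] at hD
  have es : s = (1 - y * t ^ 3 * v) / (t * D) := by
    have h1 : x - (t ^ 2 * v)⁻¹ = -D / (t ^ 2 * v) := by
      rw [hDd]
      field_simp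
      ring
    have h2 : y - (t ^ 3 * v)⁻¹ = -(1 - y * t ^ 3 * v) / (t ^ 3 * v) := by
      field_simp
      ring
    rw [hs, h1, h2]
    field_simp
  have hkey : v * (1 - y * t ^ 3 * v) ^ 2 - D ^ 2 = t ^ 2 * gN a b x y t v := by
    unfold gN
    rw [hDd]
    linear_combination he
  have hkey2 : gN a b x y t v - 2 * x * v * D ^ 2 = t * gM a b x y t v := by
    unfold gN gM
    rw [hDd]
    ring
  have h2 : s ^ 2 - (t ^ 2 * v)⁻¹ = gN a b x y t v * v⁻¹ * (D⁻¹) ^ 2 := by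
    rw [es]
    field_simp
    linear_combination hkey
  have h3 : X - x = gN a b x y t v * v⁻¹ * (D⁻¹) ^ 2 - 2 * x := by
    rw [hX]
    linear_combination h2
  constructor
  · unfold gx
    rw [← hDd]
    exact h3
  · have h4 : X - x = t * gM a b x y t v * v⁻¹ * (D⁻¹) ^ 2 := by
      rw [h3, ← hkey2]
      field_simp
    unfold gy
    rw [← hDd, h4, es]
    field_simp

/-! Chunk CM1 (M). PROOF. R = some X Y, T = some x y, X ≠ x (V X > 1 ≥ V x: ker_iff, not_ker), slope l = (Y - y) / (X - x) (Affine.slope_of_X_ne), x(R+T) = l^2 - X - x, y(R+T) = -(l (x(R+T) - x) + y)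
(Affine.Point.add_some / add_of_X_ne, addX, addY, negY for WAB; H16S/A2B or H55K/G3 (transl) have the same computation). With X = 1/(t^2 v), Y = 1/(t^3 v) (v0_xy), D = 1 - x t^2 v ≠ 0 (value 1): l = (1 - y t^3 v) / (t D),
x(R+T) = [v (1 - y t^3 v)^2 - D^2] / (t^2 v D^2) - x and v - 1 = A t^4 v^2 + B t^6 v^3 (v0_eq), so the bracket is t^2 gN. Similarly gN - 2 x v D^2 = t gM. field_simp, linear_combination. -/

theorem cm1 (hV : GV A B V) {R T : Pt (WAB A B) Ω} (hR : Ker V R) (h0 : R ≠ 0) (hT : ¬ Ker V T) :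
    xc (R + T) - xc T = gx (algebraMap F Ω A) (algebraMap F Ω B) (xc T) (yc T) (tt R) (vv R) ∧
      yc (R + T) = gy (algebraMap F Ω A) (algebraMap F Ω B) (xc T) (yc T) (tt R) (vv R) := by
  obtain ⟨hT0, hTx⟩ := not_ker V hT
  have hx1 : 1 < V.valuation (xc R) := (ker_iff V h0).1 hR
  have hne : xc T ≠ xc R := by
    intro he
    rw [he] at hTx
    exact absurd hx1 (not_lt.2 hTx)
  obtain ⟨ht0, hv0, hxR, hyR⟩ := v0_xy hV hR h0
  obtain ⟨he, hvv, -⟩ := v0_eq hV hR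
  have ht1 := ttlt hV hR
  obtain ⟨a1, a2, a3⟩ := add_coords hT0 h0 hne
  have hD : 1 - xc T * tt R ^ 2 * vv R ≠ 0 := by
    intro h
    have h1 : V.valuation (xc T * tt R ^ 2 * vv R) < 1 := by
      rw [map_mul, map_mul, map_pow, hvv, mul_one]
      have h2 : V.valuation (tt R) ^ 2 < 1 := pow_lt_one₀ zero_le ht1 (by norm_num)
      exact (mul_le_of_le_one_left zero_le hTx).trans_lt h2
    rw [← sub_eq_zero.1 h, map_one] at h1
    exact lt_irrefl _ h1
  have h5 := cm1_alg (a := algebraMap F Ω A) (b := algebraMap F Ω B) (x := xc T) (y := yc T)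
    (s := (yc T - yc R) / (xc T - xc R)) (X := xc (T + R)) ht0 hv0 hD he (by rw [hxR, hyR])
    (by rw [a2, ← hxR])
  rw [add_comm R T]
  refine ⟨h5.1, ?_⟩
  rw [a3]
  exact h5.2

end SSG.LT
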