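import Mathlib
import Pool.Agent.Lib.SSG.LT.CM1
import Pool.Agent.Lib.H55K.G4C

/-! # SSG/LT: the parameter of act c R -/

open NumberField IsDedekindDomain WeierstrassCurve

namespace SSG.LT

open H55P (IQ Pt)
open H35P (WAB Ker tt)
open H55K

variable {F : Type} [Field F] [NumberField F] [IQ F] {A B : F} {Om : ℂ} {Ω : Type} [Field Ω] [DecidableEq Ω]
  [Algebra F Ω] {j : Ω →+* ℂ} {act : 𝓞 F →+* AddMonoid.End (Pt (WAB A B) Ω)} {V : ValuationSubring Ω}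

/-! Chunk CM2 (M). PROOF. R = 0: both sides are 0. R ≠ 0: act c R ≠ 0 (H55K.tor_unit). t ≠ 0, v ≠ 0 (v0_xy). h.e1x, h.e1y with P = R (the terms xc (R + T) - xc T, yc (R + T) by cm1; T ∈ S is not in Ker V: act c T = 0 and tor_unit):
c^2 x(cR) = (t^2 v)⁻¹ + G1, c^3 y(cR) = (t^3 v)⁻¹ + G2; tt = xc / yc (H55K.tt_eq). y(cR) ≠ 0 because act c R is in Ker V and ≠ 0 (ker_act, tt_val or v0_xy). field_simp. -/

theorem cm2_c0 {c : 𝓞 F} (hc : V.valuation (ak Ω c) = 1) : c ≠ 0 := by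
  rintro rfl
  have e : ak Ω (0 : 𝓞 F) = 0 := by
    show algebraMap F Ω (algebraMap (𝓞 F) F 0) = 0
    rw [map_zero, map_zero]
  rw [e, map_zero] at hc
  exact zero_ne_one hc

theorem cm2_aux (h : CMA F A B Om j act) (hV : GV A B V) {c : 𝓞 F} (hc : V.valuation (ak Ω c) = 1)
    {S : Finset (Pt (WAB A B) Ω)} (hS : TN act c S) {T : Pt (WAB A B) Ω} (hT : T ∈ S) :
    ¬ Ker V T ∧ V.valuation (xc T) ≤ 1 ∧ V.valuation (yc T) ≤ 1 := by
  obtain ⟨h1, h2⟩ := (hS T).1 hT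
  have h3 : ¬ Ker V T := fun hk => h2 (tor_unit h hV hc (T := T) h1 hk)
  exact ⟨h3, (not_ker V h3).2, gv_y hV h3⟩

theorem cm2 (h : CMA F A B Om j act) (hV : GV A B V) {c : 𝓞 F} (hc : V.valuation (ak Ω c) = 1)
    {S : Finset (Pt (WAB A B) Ω)} (hS : TN act c S) {R : Pt (WAB A B) Ω} (hR : Ker V R) :
    tt (act c R) = ak Ω c * tt R *
      (1 + tt R ^ 2 * vv R * ∑ T ∈ S, gx (algebraMap F Ω A) (algebraMap F Ω B) (xc T) (yc T) (tt R) (vv R)) *
      (1 + tt R ^ 3 * vv R * ∑ T ∈ S, gy (algebraMap F Ω A) (algebraMap F Ω B) (xc T) (yc T) (tt R) (vv R))⁻¹ := by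
  by_cases h0 : R = 0
  · subst h0
    have e : tt (0 : Pt (WAB A B) Ω) = 0 := by rw [tt_eq, xc_zero, zero_div]
    rw [map_zero, e, mul_zero, zero_mul, zero_mul]
  · obtain ⟨ht, hv, hx, hy⟩ := v0_xy hV hR h0
    have hn : act c R ≠ 0 := fun hz => h0 (tor_unit h hV hc (T := R) hz hR)
    have hc0 := cm2_c0 hc
    have hcO : ak Ω c ≠ 0 := by
      intro hz
      rw [hz, map_zero] at hc
      exact zero_ne_one hc
    have hk := ker_act h hV c hR
    obtain ⟨hX, hY⟩ := v0_ne hV hk hn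
    have e1 := h.e1x c S hc0 hS R hn
    have e2 := h.e1y c S hc0 hS R hn
    have s1 : ∑ T ∈ S, (xc (R + T) - xc T) =
        ∑ T ∈ S, gx (algebraMap F Ω A) (algebraMap F Ω B) (xc T) (yc T) (tt R) (vv R) :=
      Finset.sum_congr rfl fun T hT => (cm1 hV hR h0 (cm2_aux h hV hc hS hT).1).1
    have s2 : ∑ T ∈ S, yc (R + T) =
        ∑ T ∈ S, gy (algebraMap F Ω A) (algebraMap F Ω B) (xc T) (yc T) (tt R) (vv R) :=
      Finset.sum_congr rfl fun T hT => (cm1 hV hR h0 (cm2_aux h hV hc hS hT).1).2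
    rw [s1, hx] at e1
    rw [s2, hy] at e2
    set G1 := ∑ T ∈ S, gx (algebraMap F Ω A) (algebraMap F Ω B) (xc T) (yc T) (tt R) (vv R)
    set G2 := ∑ T ∈ S, gy (algebraMap F Ω A) (algebraMap F Ω B) (xc T) (yc T) (tt R) (vv R)
    have e3 : tt R ^ 3 * vv R * (ak Ω c ^ 3 * yc (act c R)) = 1 + tt R ^ 3 * vv R * G2 := by
      rw [e2]
      field_simp
    have e4 : tt R ^ 2 * vv R * (ak Ω c ^ 2 * xc (act c R)) = 1 + tt R ^ 2 * vv R * G1 := by
      rw [e1]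
      field_simp
    rw [← e3, ← e4, tt_eq (act c R)]
    field_simp

/-- The nonzero points killed by `c` are integral. -/
theorem cm2_int (h : CMA F A B Om j act) (hV : GV A B V) {c : 𝓞 F} (hc : V.valuation (ak Ω c) = 1)
    {S : Finset (Pt (WAB A B) Ω)} (hS : TN act c S) {T : Pt (WAB A B) Ω} (hT : T ∈ S) :
    ¬ Ker V T ∧ V.valuation (xc T) ≤ 1 ∧ V.valuation (yc T) ≤ 1 := cm2_aux h hV hc hS hT

end SSG.LT
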