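import Mathlib
import Pool.Agent.Lib.SSG.LT.PC

/-! # SSG/LT: the functions gx, gy are in the class -/

open NumberField IsDedekindDomain WeierstrassCurve

namespace SSG.LT

variable {C : Type} [NormedField C] [IsUltrametricDist C] [CompleteSpace C] {X ι : Type} [Fintype ι] {τ : ι → X → C}

/-! Chunk PC2 (M). PROOF. Ring operations: Cl.add, Cl.sub, Cl.mul, Cl.smul, Cl.pow, Cl.const. ‖2‖, ‖3‖ ≤ 1 (integers: IsUltrametricDist.norm_natCast_le_one). v⁻¹: v = 1 + (v - 1) with ‖v - 1‖ ≤ ρ (h), Cl.inv. (1 - x t^2 v)⁻¹: Cl.inv with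
H = - x t^2 v, ‖H‖ ≤ ρ. -/

omit [CompleteSpace C] in
/-- a first common step -/
theorem pc2_aux (hτ : ∀ i x, ‖τ i x‖ ≤ 1) {t v : X → C} {a b x : C} (ha : ‖a‖ ≤ 1) (hb : ‖b‖ ≤ 1) (hx : ‖x‖ ≤ 1)
    (ht : Cl τ t) (hv : Cl τ v) {ρ : ℝ} (hρ : ρ < 1) (hs : ∀ z, ‖t z‖ ≤ ρ)
    (h : ∀ z, v z = 1 + a * t z ^ 4 * v z ^ 2 + b * t z ^ 6 * v z ^ 3) :
    (Cl τ fun z => (v z)⁻¹) ∧ Cl τ fun z => (1 - x * t z ^ 2 * v z)⁻¹ := by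
  have hv1 : ∀ z, ‖v z‖ ≤ 1 := hv.norm_le hτ
  have ht1 : ∀ z, ‖t z‖ ≤ 1 := fun z => (hs z).trans hρ.le
  constructor
  · have h1 : Cl τ fun z => a * (t z ^ 4 * v z ^ 2) + b * (t z ^ 6 * v z ^ 3) :=
      ((Cl.mul hτ (ht.pow hτ 4) (hv.pow hτ 2)).smul hτ ha).add ((Cl.mul hτ (ht.pow hτ 6) (hv.pow hτ 3)).smul hτ hb)
    have h2 : ∀ z, ‖a * (t z ^ 4 * v z ^ 2) + b * (t z ^ 6 * v z ^ 3)‖ ≤ ρ := by
      intro z
      have e : a * (t z ^ 4 * v z ^ 2) + b * (t z ^ 6 * v z ^ 3) = (a * (t z ^ 3 * v z ^ 2) + b * (t z ^ 5 * v z ^ 3)) * t z := by ring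
      rw [e]
      refine pc_mul (pc_add ?_ ?_) (hs z)
      · exact pc_mul ha (pc_mul (pc_pow (ht1 z) 3) (pc_pow (hv1 z) 2))
      · exact pc_mul hb (pc_mul (pc_pow (ht1 z) 5) (pc_pow (hv1 z) 3))
    refine (Cl.inv hτ h1 hρ h2).congr fun z => ?_
    congr 1
    have h3 := h z
    linear_combination h3
  · have h1 : Cl τ fun z => -(x * (t z ^ 2 * v z)) := ((Cl.mul hτ (ht.pow hτ 2) hv).smul hτ hx).neg hτ
    have h2 : ∀ z, ‖-(x * (t z ^ 2 * v z))‖ ≤ ρ := by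
      intro z
      have e : -(x * (t z ^ 2 * v z)) = -(x * (t z * v z)) * t z := by ring
      rw [e]
      refine pc_mul ?_ (hs z)
      rw [norm_neg]
      exact pc_mul hx (pc_mul (ht1 z) (hv1 z))
    refine (Cl.inv hτ h1 hρ h2).congr fun z => ?_
    congr 1
    ring

omit [CompleteSpace C] in
theorem pc2_nat (n : ℕ) : ‖(n : C)‖ ≤ 1 := IsUltrametricDist.norm_natCast_le_one C n

theorem cl_gx (hτ : ∀ i x, ‖τ i x‖ ≤ 1) {t v : X → C} {a b x y : C} (ha : ‖a‖ ≤ 1) (hb : ‖b‖ ≤ 1) (hx : ‖x‖ ≤ 1)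
    (hy : ‖y‖ ≤ 1) (ht : Cl τ t) (hv : Cl τ v) {ρ : ℝ} (hρ : ρ < 1) (hs : ∀ z, ‖t z‖ ≤ ρ)
    (h : ∀ z, v z = 1 + a * t z ^ 4 * v z ^ 2 + b * t z ^ 6 * v z ^ 3) :
    Cl τ fun z => gx a b x y (t z) (v z) := by
  obtain ⟨h1, h2⟩ := pc2_aux hτ ha hb hx ht hv hρ hs h
  have n2 : ‖(2 : C)‖ ≤ 1 := by
    have := pc2_nat (C := C) 2
    simpa using this
  have c1 : Cl τ fun z => a * (t z ^ 2 * v z ^ 2) := (Cl.mul hτ (ht.pow hτ 2) (hv.pow hτ 2)).smul hτ ha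
  have c2 : Cl τ fun z => b * (t z ^ 4 * v z ^ 3) := (Cl.mul hτ (ht.pow hτ 4) (hv.pow hτ 3)).smul hτ hb
  have c3 : Cl τ fun z => (2 * y) * (t z * v z ^ 2) := (Cl.mul hτ ht (hv.pow hτ 2)).smul hτ (pc_mul n2 hy)
  have c4 : Cl τ fun z => (y ^ 2) * (t z ^ 4 * v z ^ 3) := (Cl.mul hτ (ht.pow hτ 4) (hv.pow hτ 3)).smul hτ (pc_pow hy 2)
  have c5 : Cl τ fun z => (2 * x) * v z := hv.smul hτ (pc_mul n2 hx)
  have c6 : Cl τ fun z => (x ^ 2) * (t z ^ 2 * v z ^ 2) := (Cl.mul hτ (ht.pow hτ 2) (hv.pow hτ 2)).smul hτ (pc_pow hx 2)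
  have hN := ((((c1.add c2).sub hτ c3).add c4).add c5).sub hτ c6
  have hG := (Cl.mul hτ (Cl.mul hτ hN h1) (h2.pow hτ 2)).sub hτ (Cl.const (τ := τ) (a := 2 * x) (pc_mul n2 hx))
  refine hG.congr fun z => ?_
  unfold gx gN
  ring

theorem cl_gy (hτ : ∀ i x, ‖τ i x‖ ≤ 1) {t v : X → C} {a b x y : C} (ha : ‖a‖ ≤ 1) (hb : ‖b‖ ≤ 1) (hx : ‖x‖ ≤ 1)
    (hy : ‖y‖ ≤ 1) (ht : Cl τ t) (hv : Cl τ v) {ρ : ℝ} (hρ : ρ < 1) (hs : ∀ z, ‖t z‖ ≤ ρ)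
    (h : ∀ z, v z = 1 + a * t z ^ 4 * v z ^ 2 + b * t z ^ 6 * v z ^ 3) :
    Cl τ fun z => gy a b x y (t z) (v z) := by
  obtain ⟨h1, h2⟩ := pc2_aux hτ ha hb hx ht hv hρ hs h
  have n2 : ‖(2 : C)‖ ≤ 1 := by
    have := pc2_nat (C := C) 2
    simpa using this
  have n3 : ‖(3 : C)‖ ≤ 1 := by
    have := pc2_nat (C := C) 3
    simpa using this
  have c1 : Cl τ fun z => a * (t z * v z ^ 2) := (Cl.mul hτ ht (hv.pow hτ 2)).smul hτ ha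
  have c2 : Cl τ fun z => b * (t z ^ 3 * v z ^ 3) := (Cl.mul hτ (ht.pow hτ 3) (hv.pow hτ 3)).smul hτ hb
  have c3 : Cl τ fun z => (2 * y) * v z ^ 2 := (hv.pow hτ 2).smul hτ (pc_mul n2 hy)
  have c4 : Cl τ fun z => (y ^ 2) * (t z ^ 3 * v z ^ 3) := (Cl.mul hτ (ht.pow hτ 3) (hv.pow hτ 3)).smul hτ (pc_pow hy 2)
  have c5 : Cl τ fun z => (3 * x ^ 2) * (t z * v z ^ 2) := (Cl.mul hτ ht (hv.pow hτ 2)).smul hτ (pc_mul n3 (pc_pow hx 2))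
  have c6 : Cl τ fun z => (2 * x ^ 3) * (t z ^ 3 * v z ^ 3) := (Cl.mul hτ (ht.pow hτ 3) (hv.pow hτ 3)).smul hτ (pc_mul n2 (pc_pow hx 3))
  have hM := ((((c1.add c2).sub hτ c3).add c4).add c5).sub hτ c6
  have c7 : Cl τ fun z => 1 - y * (t z ^ 3 * v z) := (Cl.const (τ := τ) (a := 1) norm_one.le).sub hτ ((Cl.mul hτ (ht.pow hτ 3) hv).smul hτ hy)
  have hG := ((Cl.mul hτ (Cl.mul hτ (Cl.mul hτ c7 hM) h1) (h2.pow hτ 3)).add (Cl.const (τ := τ) (a := y) hy)).neg hτ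
  refine hG.congr fun z => ?_
  unfold gy gM
  ring

end SSG.LT
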