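import Mathlib
import Pool.Agent.Lib.SSG.LT.PC2
import Pool.Agent.Lib.SSG.LT.CM2
import Pool.Agent.Lib.H55K.G4A

/-! # SSG/LT: act c preserves the class, c a unit at V -/

open NumberField IsDedekindDomain WeierstrassCurve

namespace SSG.LT

open H55P (IQ Pt)
open H35P (WAB Ker tt)
open H55K

variable {C : Type} [NormedField C] [IsUltrametricDist C] [CompleteSpace C] {X ι : Type} [Fintype ι] {τ : ι → X → C}
  {F : Type} [Field F] [NumberField F] [IQ F] {A B : F} {Om : ℂ} {Ω : Type} [Field Ω] [DecidableEq Ω]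
  [Algebra F Ω] {j : Ω →+* ℂ} {act : 𝓞 F →+* AddMonoid.End (Pt (WAB A B) Ω)} {V : ValuationSubring Ω}

/-! Chunk PC3 (M). PROOF. ‖i x‖ ≤ 1 iff V.valuation x ≤ 1 (hi, V.valuation_le_one_iff). v x = i (vv (P x)) is in the class (cl_v with a = i (algebraMap A), b = i (algebraMap B); v0_eq mapped by i). Apply i to cm2 (S from H55K.exists_TN, c ≠ 0):
map_mul, map_add, map_sum, map_inv₀, and i (gx a b x y t v) = gx (i a) (i b) .. (unfold gx gN; simp / map_*). In the class: Cl.smul (‖i c‖ ≤ 1), Cl.mul, Cl.sum (cl_gx, cl_gy with the integral coordinates of cm2_int), Cl.inv with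
H = t^3 v (sum of gy), ‖H‖ ≤ ρ (Cl.norm_le for v and the sum). ker: H55K.ker_act. small: the same ρ: ‖i tt (act c P)‖ = ‖i tt P‖ (H55K.tt_act_unit) or from the formula. -/

theorem pc3_val {i : Ω →+* C} (hi : ∀ x, x ∈ V ↔ ‖i x‖ ≤ 1) {x : Ω} (h : V.valuation x ≤ 1) : ‖i x‖ ≤ 1 :=
  (hi x).1 ((V.valuation_le_one_iff x).1 h)

theorem pc3_le {i : Ω →+* C} (hi : ∀ x, x ∈ V ↔ ‖i x‖ ≤ 1) {x y : Ω} (h : V.valuation x ≤ V.valuation y) :
    ‖i x‖ ≤ ‖i y‖ := by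
  by_cases hy : y = 0
  · rw [hy, map_zero, le_zero_iff, Valuation.zero_iff] at h
    rw [h, hy]
  · have h1 : V.valuation (x / y) ≤ 1 := by
      rw [map_div₀]
      exact div_le_one_of_le₀ h zero_le
    have h2 := pc3_val hi h1
    rw [map_div₀, norm_div] at h2
    have h3 : 0 < ‖i y‖ := norm_pos_iff.2 ((map_ne_zero i).2 hy)
    exact (div_le_one h3).1 h2

theorem pc3_gx (i : Ω →+* C) (a b x y t v : Ω) : i (gx a b x y t v) = gx (i a) (i b) (i x) (i y) (i t) (i v) := by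
  unfold gx gN
  simp only [map_sub, map_add, map_mul, map_pow, map_inv₀, map_ofNat, map_one]

theorem pc3_gy (i : Ω →+* C) (a b x y t v : Ω) : i (gy a b x y t v) = gy (i a) (i b) (i x) (i y) (i t) (i v) := by
  unfold gy gM
  simp only [map_sub, map_add, map_mul, map_pow, map_inv₀, map_ofNat, map_one, map_neg]

theorem PC.act_unit (hτ : ∀ i x, ‖τ i x‖ ≤ 1) {i : Ω →+* C} (hi : ∀ x, x ∈ V ↔ ‖i x‖ ≤ 1) (h : CMA F A B Om j act)
    (hV : GV A B V) {c : 𝓞 F} (hc : V.valuation (ak Ω c) = 1) {P : X → Pt (WAB A B) Ω} (hP : PC V i τ P) :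
    PC V i τ fun x => act c (P x) := by
  obtain ⟨ρ, hρ, hs⟩ := hP.small
  have hc0 : c ≠ 0 := by
    intro h0
    rw [h0] at hc
    have h1 : ak Ω (0 : 𝓞 F) = 0 := by
      unfold ak
      simp
    rw [h1, map_zero] at hc
    exact zero_ne_one hc
  obtain ⟨S, hS, -⟩ := exists_TN h hc0
  have ha : ‖i (algebraMap F Ω A)‖ ≤ 1 := (hi _).1 hV.a
  have hb : ‖i (algebraMap F Ω B)‖ ≤ 1 := (hi _).1 hV.b
  have hvl : ∀ x, ‖i (vv (P x))‖ ≤ 1 := fun x => pc3_val hi (v0_eq hV (hP.ker x)).2.1.le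
  have heq : ∀ x, i (vv (P x)) = 1 + i (algebraMap F Ω A) * i (tt (P x)) ^ 4 * i (vv (P x)) ^ 2 +
      i (algebraMap F Ω B) * i (tt (P x)) ^ 6 * i (vv (P x)) ^ 3 := by
    intro x
    have h1 := congrArg i (v0_eq hV (hP.ker x)).1
    rw [map_add, map_add, map_one, map_mul, map_mul, map_mul, map_mul, map_pow, map_pow, map_pow, map_pow] at h1
    exact h1
  have hcv : Cl τ fun x => i (vv (P x)) := cl_v hτ ha hb hP.cl hρ hs hvl heq
  have hgx : Cl τ fun x => ∑ T ∈ S, gx (i (algebraMap F Ω A)) (i (algebraMap F Ω B)) (i (xc T)) (i (yc T))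
      (i (tt (P x))) (i (vv (P x))) := by
    refine Cl.sum S fun T hT => ?_
    obtain ⟨-, h2, h3⟩ := cm2_int h hV hc hS hT
    exact cl_gx hτ ha hb (pc3_val hi h2) (pc3_val hi h3) hP.cl hcv hρ hs heq
  have hgy : Cl τ fun x => ∑ T ∈ S, gy (i (algebraMap F Ω A)) (i (algebraMap F Ω B)) (i (xc T)) (i (yc T))
      (i (tt (P x))) (i (vv (P x))) := by
    refine Cl.sum S fun T hT => ?_
    obtain ⟨-, h2, h3⟩ := cm2_int h hV hc hS hT
    exact cl_gy hτ ha hb (pc3_val hi h2) (pc3_val hi h3) hP.cl hcv hρ hs heq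
  have hH : Cl τ fun x => i (tt (P x)) ^ 3 * i (vv (P x)) * ∑ T ∈ S, gy (i (algebraMap F Ω A)) (i (algebraMap F Ω B))
      (i (xc T)) (i (yc T)) (i (tt (P x))) (i (vv (P x))) :=
    Cl.mul hτ (Cl.mul hτ (hP.cl.pow hτ 3) hcv) hgy
  have hG : Cl τ fun x => 1 + i (tt (P x)) ^ 2 * i (vv (P x)) * ∑ T ∈ S, gx (i (algebraMap F Ω A))
      (i (algebraMap F Ω B)) (i (xc T)) (i (yc T)) (i (tt (P x))) (i (vv (P x))) :=
    (Cl.const norm_one.le).add (Cl.mul hτ (Cl.mul hτ (hP.cl.pow hτ 2) hcv) hgx)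
  have hHb : ∀ x, ‖i (tt (P x)) ^ 3 * i (vv (P x)) * ∑ T ∈ S, gy (i (algebraMap F Ω A)) (i (algebraMap F Ω B))
      (i (xc T)) (i (yc T)) (i (tt (P x))) (i (vv (P x)))‖ ≤ ρ := by
    intro x
    have h1 := hgy.norm_le hτ x
    have h2 : ‖i (tt (P x))‖ ^ 2 ≤ 1 := pow_le_one₀ (norm_nonneg _) ((hs x).trans hρ.le)
    rw [norm_mul, norm_mul, norm_pow, pow_succ]
    have h3 : ‖i (tt (P x))‖ ^ 2 * ‖i (tt (P x))‖ ≤ ρ := by
      calc ‖i (tt (P x))‖ ^ 2 * ‖i (tt (P x))‖ ≤ 1 * ‖i (tt (P x))‖ := mul_le_mul_of_nonneg_right h2 (norm_nonneg _)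
        _ = ‖i (tt (P x))‖ := one_mul _
        _ ≤ ρ := hs x
    have hρ0 : 0 ≤ ρ := (norm_nonneg _).trans (hs x)
    calc _ ≤ ρ * 1 * 1 := mul_le_mul (mul_le_mul h3 (hvl x) (norm_nonneg _) hρ0) h1 (norm_nonneg _)
          (mul_nonneg hρ0 zero_le_one)
      _ = ρ := by ring
  have hca : ‖i (ak Ω c)‖ ≤ 1 := pc3_val hi hc.le
  refine ⟨fun x => ker_act h hV c (hP.ker x), ⟨ρ, hρ, fun x => ?_⟩, ?_⟩
  · exact (pc3_le hi (tt_act_unit h hV hc (hP.ker x)).le).trans (hs x)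
  · refine (Cl.mul hτ (Cl.mul hτ (hP.cl.smul hτ hca) hG) (Cl.inv hτ hH hρ hHb)).congr fun x => ?_
    show i (tt (act c (P x))) = _
    rw [cm2 h hV hc hS (hP.ker x)]
    simp only [map_mul, map_add, map_one, map_inv₀, map_pow, map_sum, pc3_gx, pc3_gy]

end SSG.LT
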