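import Mathlib
import Pool.Agent.Lib.SSG.LT.PA2
import Pool.Agent.Lib.SSG.LT.PC3

/-! # SSG/LT: act c and finite sums -/

open NumberField IsDedekindDomain WeierstrassCurve

namespace SSG.LT

open H55P (IQ Pt)
open H35P (WAB Ker tt)
open H55K

variable {C : Type} [NormedField C] [IsUltrametricDist C] [CompleteSpace C] {X ι : Type} [Fintype ι] {τ : ι → X → C}
  {F : Type} [Field F] [NumberField F] [IQ F] {A B : F} {Om : ℂ} {Ω : Type} [Field Ω] [DecidableEq Ω]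
  [Algebra F Ω] {j : Ω →+* ℂ} {act : 𝓞 F →+* AddMonoid.End (Pt (WAB A B) Ω)} {V : ValuationSubring Ω}

/-! Chunk PA3 (S/M). PROOF. zero: tt 0 = 0. neg: H55K.tt_neg, kneg. n • P: induction. act c P = act (c + n) P + -(n • P) with V(c + n) = 1: H55K.exists_shift, g4c_split (G4C.lean; from V(Nm(c+n)) = 1 to V(ak (c+n)) = 1: see act_unit there,
tt_act_unit; ak_le and Nm = product with an integer: used in G4C). PC.act_unit, PC.add. Sum: Finset.induction_on. -/
theorem PC.zero (hτ : ∀ i x, ‖τ i x‖ ≤ 1) {i : Ω →+* C} : PC V i τ fun _ => (0 : Pt (WAB A B) Ω) := by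
  have _ := hτ
  have e0 : i (tt (0 : Pt (WAB A B) Ω)) = 0 := map_zero i
  refine ⟨fun _ => trivial, ⟨0, zero_lt_one, fun x => ?_⟩, ?_⟩
  · rw [e0, norm_zero]
  · exact (Cl.const (τ := τ) (a := (0 : C)) (by rw [norm_zero]; exact zero_le_one)).congr fun x => e0

theorem PC.neg (hτ : ∀ i x, ‖τ i x‖ ≤ 1) {i : Ω →+* C} {P : X → Pt (WAB A B) Ω} (hP : PC V i τ P) :
    PC V i τ fun x => - P x := by
  have e : ∀ x, i (tt (- P x)) = - i (tt (P x)) := fun x => by rw [tt_neg, map_neg]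
  obtain ⟨ρ, hρ, hs⟩ := hP.small
  refine ⟨fun x => kneg (hP.ker x), ⟨ρ, hρ, fun x => ?_⟩, (hP.cl.neg hτ).congr e⟩
  rw [e x, norm_neg]
  exact hs x

/-- natural multiples -/
theorem pa3_nsmul (hτ : ∀ i x, ‖τ i x‖ ≤ 1) {i : Ω →+* C} (hi : ∀ x, x ∈ V ↔ ‖i x‖ ≤ 1)
    (hV : GV A B V) {P : X → Pt (WAB A B) Ω} (hP : PC V i τ P) (n : ℕ) : PC V i τ fun x => n • P x := by
  induction n with
  | zero =>
    have h1 : (fun x => 0 • P x) = fun _ => (0 : Pt (WAB A B) Ω) := funext fun x => zero_smul _ _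
    rw [h1]
    exact PC.zero hτ
  | succ n ih =>
    have h1 : (fun x => (n + 1) • P x) = fun x => n • P x + P x := funext fun x => succ_nsmul _ _
    rw [h1]
    exact PC.add hτ hi hV ih hP

omit [DecidableEq Ω] in
theorem pa3_unit {a : 𝓞 F} (ha : V.valuation (H55P.Nm a : Ω) = 1) : V.valuation (ak Ω a) = 1 := by
  have e1 : ak Ω a * ak Ω (cj a) = (H55P.Nm a : Ω) := by
    have e2 : ak Ω (a * cj a) = ak Ω ((H55P.Nm a : 𝓞 F)) := by rw [mul_cj]
    have e3 : ak Ω (a * cj a) = ak Ω a * ak Ω (cj a) := by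
      show algebraMap F Ω (algebraMap (𝓞 F) F (a * cj a)) =
        algebraMap F Ω (algebraMap (𝓞 F) F a) * algebraMap F Ω (algebraMap (𝓞 F) F (cj a))
      rw [map_mul, map_mul]
    have e4 : ak Ω ((H55P.Nm a : 𝓞 F)) = (H55P.Nm a : Ω) := by
      show algebraMap F Ω (algebraMap (𝓞 F) F ((H55P.Nm a : 𝓞 F))) = _
      rw [map_natCast, map_natCast]
    rw [← e3, e2, e4]
  have e5 : V.valuation (ak Ω a) * V.valuation (ak Ω (cj a)) = 1 := by
    rw [← map_mul, e1, ha]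
  refine le_antisymm (ak_le V a) ?_
  rw [← e5]
  exact mul_le_of_le_one_right zero_le (ak_le V (cj a))

theorem PC.act_all (hτ : ∀ i x, ‖τ i x‖ ≤ 1) {i : Ω →+* C} (hi : ∀ x, x ∈ V ↔ ‖i x‖ ≤ 1) (h : CMA F A B Om j act)
    (hV : GV A B V) (c : 𝓞 F) {P : X → Pt (WAB A B) Ω} (hP : PC V i τ P) :
    PC V i τ fun x => act c (P x) := by
  obtain ⟨n, _, hn⟩ := exists_shift hV c
  have h1 : (fun x => act c (P x)) = fun x => act (c + (n : 𝓞 F)) (P x) + -(n • P x) :=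
    funext fun x => g4c_split act c n (P x)
  rw [h1]
  exact PC.add hτ hi hV (PC.act_unit hτ hi h hV (pa3_unit hn) hP) (PC.neg hτ (pa3_nsmul hτ hi hV hP n))

theorem PC.sum (hτ : ∀ i x, ‖τ i x‖ ≤ 1) {i : Ω →+* C} (hi : ∀ x, x ∈ V ↔ ‖i x‖ ≤ 1)
    (hV : GV A B V) {κ : Type} (s : Finset κ) {P : κ → X → Pt (WAB A B) Ω} (hP : ∀ k ∈ s, PC V i τ (P k)) :
    PC V i τ fun x => ∑ k ∈ s, P k x := by
  classical
  induction s using Finset.induction_on with
  | empty =>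
    have h1 : (fun x => ∑ k ∈ (∅ : Finset κ), P k x) = fun _ => (0 : Pt (WAB A B) Ω) := funext fun x => Finset.sum_empty
    rw [h1]
    exact PC.zero hτ
  | insert k s hk ih =>
    have h1 : (fun x => ∑ l ∈ insert k s, P l x) = fun x => P k x + ∑ l ∈ s, P l x := funext fun x => Finset.sum_insert hk
    rw [h1]
    exact PC.add hτ hi hV (hP k (Finset.mem_insert_self k s)) (ih fun l hl => hP l (Finset.mem_insert_of_mem hl))

end SSG.LT
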