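import Mathlib
import Pool.Agent.Lib.H55K.D0
import Pool.Agent.Lib.SSG.F.Defs
import Pool.Agent.Lib.SSG.F.D5

/-! # SSG, module (LT): the local model at an inert prime -/

open NumberField IsDedekindDomain WeierstrassCurve

namespace SSG

open H55P (IQ embF eF LF Per IsHecke Pt ac Inert Dec)
open H35P (WAB Ker tt)
open H55K

/-- The local model at the valuation ring V of Ω above the inert prime p: an embedding i of Ω in ℂ_[p] inducing V, the points T N of
order p^N with parameter 1/(-p)^N, a Lubin-Tate frame L, and the coordinate x/y of the multiples of T N as integral function of the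
Lubin-Tate coordinates. -/
structure LocM {F : Type} [Field F] [NumberField F] [IQ F] (A B : F) (Om : ℂ) {Ω : Type} [Field Ω] [DecidableEq Ω]
    [Algebra F Ω] (j : Ω →+* ℂ) (act : 𝓞 F →+* AddMonoid.End (Pt (WAB A B) Ω)) (p : ℕ) [Fact p.Prime]
    (V : ValuationSubring Ω) (i : Ω →+* ℂ_[p]) (T : ℕ → Pt (WAB A B) Ω) (L : LTF F ℂ_[p]) : Prop where
  val : ∀ x : Ω, x ∈ V ↔ ‖i x‖ ≤ 1
  ok : L.Ok p
  good : L.Good p
  zero : ∀ N (a : 𝓞 F), act a (T N) = 0 ↔ (p : 𝓞 F) ^ N ∣ a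
  down : ∀ N, act (-(p : 𝓞 F)) (T (N + 1)) = T N
  unif : ∀ N (a : 𝓞 F), ¬ (p : 𝓞 F) ^ N ∣ a →
    j (xc (act a (T N))) = (LF F).weierstrassP (eF F a / (-(p : ℂ)) ^ N) / Om ^ 2 ∧
    j (yc (act a (T N))) = (LF F).derivWeierstrassP (eF F a / (-(p : ℂ)) ^ N) / (2 * Om ^ 3)
  ker : ∀ N (a : 𝓞 F), Ker V (act a (T N))
  fn : ∀ (N : ℕ) (ι : Type) [Fintype ι] (c : ι → 𝓞 F), L.Fn N ι (fun a => i (tt (act (∑ k, c k * a k) (T N))))

end SSG
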