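import Mathlib
import Pool.Agent.Lib.H55K.D0
import Pool.Agent.Lib.SSG.LT.Defs

/-! # SSG, module (LT): the structures between the curve and the Lubin-Tate frame

`i₀ : Ω →+* PadicAlgCl p` induces `V`; `T N` = the point with parameter `1 / (-p) ^ N`;
`X N a` = the Lubin-Tate coordinate of `act a (T N)`, in `PadicAlgCl p`. -/

open NumberField IsDedekindDomain WeierstrassCurve

namespace SSG

open H55P (IQ embF eF LF Per IsHecke Pt ac Inert Dec)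
open H35P (WAB Ker tt)
open H55K

section defs

variable {F : Type} [Field F] [NumberField F] [IQ F] (A B : F) (Om : ℂ) {Ω : Type} [Field Ω] [DecidableEq Ω]
  [Algebra F Ω] (j : Ω →+* ℂ) (act : 𝓞 F →+* AddMonoid.End (Pt (WAB A B) Ω)) (p : ℕ) [Fact p.Prime]

/-- The points `T N` of order `p ^ N` with parameter `1 / (-p) ^ N`, in the kernel of reduction. -/
structure PtsT (V : ValuationSubring Ω) (T : ℕ → Pt (WAB A B) Ω) : Prop where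
  zero : ∀ N (a : 𝓞 F), act a (T N) = 0 ↔ (p : 𝓞 F) ^ N ∣ a
  down : ∀ N, act (-(p : 𝓞 F)) (T (N + 1)) = T N
  unif : ∀ N (a : 𝓞 F), ¬ (p : 𝓞 F) ^ N ∣ a →
    j (xc (act a (T N))) = (LF F).weierstrassP (eF F a / (-(p : ℂ)) ^ N) / Om ^ 2 ∧
    j (yc (act a (T N))) = (LF F).derivWeierstrassP (eF F a / (-(p : ℂ)) ^ N) / (2 * Om ^ 3)
  ker : ∀ N (a : 𝓞 F), Ker V (act a (T N))

/-- The Lubin-Tate coordinates `X N a` of the points `act a (T N)`. -/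
structure XFr {A B : F} (act : 𝓞 F →+* AddMonoid.End (Pt (WAB A B) Ω)) (i₀ : Ω →+* PadicAlgCl p)
    (T : ℕ → Pt (WAB A B) Ω) (X : ℕ → 𝓞 F → PadicAlgCl p) : Prop where
  small : ∀ N a, ‖X N a‖ < 1
  zero : ∀ N, X N 0 = 0
  inj : ∀ N a b, X N a = X N b ↔ (p : 𝓞 F) ^ N ∣ a - b
  down : ∀ N a, X N a = X (N + 1) (-(p : 𝓞 F) * a)
  g : ∀ N a, X N a = -(p : PadicAlgCl p) * X (N + 1) a + X (N + 1) a ^ (p ^ 2)
  app : ∀ N (ε : ℝ), 0 < ε → ∃ Q : Polynomial F, ∀ a : 𝓞 F,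
    ‖X N a - Q.eval₂ (i₀.comp (algebraMap F Ω)) (i₀ (tt (act a (T N))))‖ ≤ ε

end defs

/-- The embedding of `Ω` in `ℂ_p` through `PadicAlgCl p`. -/
noncomputable def toC {Ω : Type} [Field Ω] {p : ℕ} [Fact p.Prime] (i₀ : Ω →+* PadicAlgCl p) : Ω →+* ℂ_[p] :=
  (algebraMap (PadicAlgCl p) ℂ_[p]).comp i₀

variable {F : Type} [Field F] [NumberField F] [IQ F] {A B : F} {Om : ℂ} {Ω : Type} [Field Ω] [DecidableEq Ω]
  [Algebra F Ω] [IsAlgClosure F Ω] {j : Ω →+* ℂ} {act : 𝓞 F →+* AddMonoid.End (Pt (WAB A B) Ω)}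
  {m : Ideal (𝓞 F)} {ψ : Ideal (𝓞 F) →*₀ 𝓞 F} {p : ℕ} [Fact p.Prime]

theorem norm_toC {i₀ : Ω →+* PadicAlgCl p} (x : Ω) : ‖toC i₀ x‖ = ‖i₀ x‖ := by
  unfold toC
  rw [RingHom.comp_apply, ← PadicComplex.coe_eq, PadicComplex.norm_extends]

end SSG
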