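import Mathlib
import Pool.Agent.Lib.SSG.LT.D
import Pool.Agent.Lib.H16S.A3
import Pool.Agent.Lib.H55K.G1
import Pool.Agent.Lib.H55K.G4A

/-! # SSG/LT: small lemmas for the coordinates -/

open NumberField IsDedekindDomain WeierstrassCurve

namespace SSG.LT

open H55P (IQ embF eF LF Per IsHecke Pt ac Inert Dec)
open H35P (WAB Ker tt)
open H55K

/-! Chunk XM1 (S/M). PROOF. Q = X^q - C p X - C x ≠ 0 in K[X] (coefficient q is 1, q ≥ 2), splits (IsAlgClosed.splits); y is a root of Q.map φ, whose roots are the images of the roots of Q (Polynomial.roots_map / Splits.roots_map,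
Multiset.mem_map). -/
theorem xm1_alg {K L : Type} [Field K] [IsAlgClosed K] [Field L] (φ : K →+* L) {q : ℕ} (hq : 2 ≤ q) (c x : K) {y : L}
    (h : -(φ c) * y + y ^ q = φ x) : ∃ z : K, φ z = y := by
  classical
  obtain ⟨Q, hQ⟩ : ∃ Q : Polynomial K, Q = Polynomial.X ^ q + (Polynomial.C (-c) * Polynomial.X +
      Polynomial.C (-x)) := ⟨_, rfl⟩
  have hdeg : (Polynomial.C (-c) * Polynomial.X + Polynomial.C (-x)).degree <
      (q : WithBot ℕ) := by
    refine lt_of_le_of_lt Polynomial.degree_linear_le ?_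
    exact_mod_cast (by omega : 1 < q)
  have hQm : Q.Monic := by
    rw [hQ]
    exact Polynomial.monic_X_pow_add hdeg
  have hQ0 : Q ≠ 0 := hQm.ne_zero
  have hroot : y ∈ (Q.map φ).roots := by
    rw [Polynomial.mem_roots (by rw [Polynomial.map_ne_zero_iff φ.injective]; exact hQ0),
      Polynomial.IsRoot.def, hQ]
    simp only [Polynomial.map_add, Polynomial.map_pow, Polynomial.map_X, Polynomial.map_mul,
      Polynomial.map_C, Polynomial.eval_add, Polynomial.eval_pow, Polynomial.eval_X,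
      Polynomial.eval_mul, Polynomial.eval_C]
    rw [map_neg, map_neg]
    linear_combination h
  have hs : Q.Splits := IsAlgClosed.splits Q
  rw [hs.roots_map φ] at hroot
  obtain ⟨z, -, hz⟩ := Multiset.mem_map.1 hroot
  exact ⟨z, hz⟩

/-! PROOF. p prime in 𝓞 F etc. not needed. tt P = 0 iff P = 0 (H55K.tt_zero). Both nonzero: H16S.ww equal by H16S.w_unique (Eqn_ww with the curve (WAB A B)⁄Ω, base_a4, base_a6; ker_tw: V (ww) = V(tt)^3 < 1), yc = ww⁻¹, xc = tt * yc, pt_ext. -/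
theorem xm1_inj {F : Type} [Field F] [NumberField F] [IQ F] {A B : F} {Ω : Type} [Field Ω] [DecidableEq Ω]
    [Algebra F Ω] {V : ValuationSubring Ω} (hG : GV A B V) {P Q : Pt (WAB A B) Ω} (hP : Ker V P) (hQ : Ker V Q)
    (h : tt P = tt Q) : P = Q :=
  H16S.tt_inj (gv_good hG).toIntW hP hQ h

/-! PROOF. The points act a T with act b T = 0 lie in Tor act b, a finite set (S ∪ {0}, H55K.exists_TN; act b (act a T) = act a (act b T)). The maximum of the finitely many norms ‖i (tt Q)‖ < 1 (V.valuation (tt Q) < 1: H55K.ttlt; ‖i x‖ < 1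
iff V.valuation x < 1: from hi for x⁻¹). -/
theorem xm1_bd {F : Type} [Field F] [NumberField F] [IQ F] {A B : F} {Om : ℂ} {Ω : Type} [Field Ω] [DecidableEq Ω]
    [Algebra F Ω] {j : Ω →+* ℂ} {act : 𝓞 F →+* AddMonoid.End (Pt (WAB A B) Ω)} {V : ValuationSubring Ω}
    (h : CMA F A B Om j act) (hG : GV A B V) {C : Type} [NormedField C] (i : Ω →+* C) (hi : ∀ x, x ∈ V ↔ ‖i x‖ ≤ 1)
    {b : 𝓞 F} (hb : b ≠ 0) {T : Pt (WAB A B) Ω} (hT : act b T = 0) (hK : ∀ a, Ker V (act a T)) :
    ∃ ρ : ℝ, ρ < 1 ∧ ∀ a, ‖i (tt (act a T))‖ ≤ ρ := by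
  classical
  have hlt : ∀ x : Ω, V.valuation x < 1 → ‖i x‖ < 1 := by
    intro x hx
    by_cases hx0 : x = 0
    · rw [hx0, map_zero, norm_zero]
      exact one_pos
    · by_contra hcon
      rw [not_lt] at hcon
      have h1 : ‖i x⁻¹‖ ≤ 1 := by
        rw [map_inv₀, norm_inv]
        exact inv_le_one_of_one_le₀ hcon
      have h2 := (V.valuation_le_one_iff _).2 ((hi _).2 h1)
      rw [map_inv₀] at h2
      have h3 : V.valuation x ≠ 0 := (Valuation.ne_zero_iff _).2 hx0
      have h4 : 1 < (V.valuation x)⁻¹ := (one_lt_inv₀ (zero_lt_iff.2 h3)).2 hx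
      exact absurd h2 (not_le.2 h4)
  obtain ⟨S, hS, -⟩ := exists_TN h hb
  obtain ⟨U, hU⟩ : ∃ U : Finset (Pt (WAB A B) Ω), U = (insert 0 S).filter fun P => Ker V P :=
    ⟨_, rfl⟩
  have hUne : (U.image fun P => ‖i (tt P)‖).Nonempty := by
    refine ⟨_, Finset.mem_image_of_mem _ (a := 0) ?_⟩
    rw [hU, Finset.mem_filter]
    exact ⟨Finset.mem_insert_self _ _, trivial⟩
  refine ⟨(U.image fun P => ‖i (tt P)‖).max' hUne, ?_, ?_⟩
  · rw [Finset.max'_lt_iff]
    intro t ht
    obtain ⟨P, hP, rfl⟩ := Finset.mem_image.1 ht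
    rw [hU, Finset.mem_filter] at hP
    exact hlt _ (ttlt hG hP.2)
  · intro a
    apply Finset.le_max'
    refine Finset.mem_image_of_mem _ (a := act a T) ?_
    rw [hU, Finset.mem_filter]
    refine ⟨?_, hK a⟩
    have h1 : act b (act a T) = 0 := by
      have h2 : act b (act a T) = act (b * a) T := by rw [map_mul]; rfl
      have h3 : act a (act b T) = act (a * b) T := by rw [map_mul]; rfl
      rw [h2, mul_comm, ← h3, hT, map_zero]
    by_cases h4 : act a T = 0
    · rw [h4]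
      exact Finset.mem_insert_self _ _
    · exact Finset.mem_insert_of_mem ((hS _).2 ⟨h1, h4⟩)

end SSG.LT
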