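import Mathlib
import Pool.Agent.Lib.SSG.LT.D
import Pool.Agent.Lib.H55K.G5E
import Pool.Agent.Lib.H55K.SD

/-! # SSG/LT: the points T N -/

open NumberField IsDedekindDomain WeierstrassCurve

namespace SSG.LT

open H55P (IQ embF eF LF Per IsHecke Pt ac Inert Dec)
open H35P (WAB Ker tt)
open H55K

variable {F : Type} [Field F] [NumberField F] [IQ F] {A B : F} {Om : ℂ} {Ω : Type} [Field Ω] [DecidableEq Ω]
  [Algebra F Ω] {j : Ω →+* ℂ} {act : 𝓞 F →+* AddMonoid.End (Pt (WAB A B) Ω)} {p : ℕ} [Fact p.Prime] {V : ValuationSubring Ω}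

/-! Chunk PT (M). PROOF. (1) pt_one: h.gen b with b = (-p)^N ≠ 0: T₀; b ∣ a iff p^N ∣ a ((-p)^N = ± p^N: neg_pow, Units / IsUnit.dvd_mul_left, or neg_pow' ..); eF F b = (-p)^N (map_pow, map_neg, map_natCast). (2) exists_pts: T N by choice from pt_one.
zero, unif: clear. down: N = 0: T 0 = 0 (zero 0 1: p^0 ∣ 1; act 1 = id) and act (-p) (T 1) = 0 (zero 1 (-p)). N ≥ 1: P = act (-p) (T (N+1)) ≠ 0 (p^(N+1) does not divide p: p is not a unit and not 0), T N = act 1 (T N) ≠ 0; unif (N+1) (-p) and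
unif N 1: eF (-p) / (-p)^(N+1) = 1 / (-p)^N = eF 1 / (-p)^N; j injective (RingHom.injective): xc, yc equal; H55K.pt_ext. (3) ker: act (p^N) (act a (T N)) = act a 0 .. = 0; by induction on n: act (p^n) X = 0 → Ker V X:
n = 0: X = 0; n + 1: act (p^n) (act p X) = 0, so Ker V (act p X), H55K.ker_red (β = p, V.valuation (ak Ω p) = V.valuation p < 1: ak of a natural number). -/

theorem pt_one (h : CMA F A B Om j act) (N : ℕ) : ∃ T₀ : Pt (WAB A B) Ω, (∀ a : 𝓞 F, act a T₀ = 0 ↔ (p : 𝓞 F) ^ N ∣ a) ∧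
    ∀ a : 𝓞 F, ¬ (p : 𝓞 F) ^ N ∣ a →
      j (xc (act a T₀)) = (LF F).weierstrassP (eF F a / (-(p : ℂ)) ^ N) / Om ^ 2 ∧
      j (yc (act a T₀)) = (LF F).derivWeierstrassP (eF F a / (-(p : ℂ)) ^ N) / (2 * Om ^ 3) := by
  have hp0 : (p : 𝓞 F) ≠ 0 := Nat.cast_ne_zero.2 (Fact.out : p.Prime).ne_zero
  have hb : (-(p : 𝓞 F)) ^ N ≠ 0 := pow_ne_zero _ (neg_ne_zero.2 hp0)
  obtain ⟨T₀, -, -, h1, h2⟩ := h.gen _ hb
  have hd : ∀ a : 𝓞 F, (-(p : 𝓞 F)) ^ N ∣ a ↔ (p : 𝓞 F) ^ N ∣ a := by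
    intro a
    rcases Nat.even_or_odd N with hN | hN
    · rw [hN.neg_pow]
    · rw [hN.neg_pow, neg_dvd]
  have he : eF F ((-(p : 𝓞 F)) ^ N) = (-(p : ℂ)) ^ N := by
    rw [map_pow, map_neg, map_natCast]
  refine ⟨T₀, fun a => (h1 a).trans (hd a), fun a ha => ?_⟩
  have h3 := h2 a (fun hh => ha ((hd a).1 hh))
  rw [he] at h3
  exact h3

theorem pt_ker (h : CMA F A B Om j act) (hG : GV A B V) (hin : Prime (p : 𝓞 F)) (hV : V.valuation (p : Ω) < 1) (n : ℕ)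
    {X : Pt (WAB A B) Ω} (hX : act ((p : 𝓞 F) ^ n) X = 0) : Ker V X := by
  induction n generalizing X with
  | zero =>
    rw [pow_zero, map_one] at hX
    have h1 : X = 0 := hX
    rw [h1]
    exact ker_zero V
  | succ n ih =>
    rw [pow_succ, map_mul] at hX
    have h1 : act ((p : 𝓞 F) ^ n) (act (p : 𝓞 F) X) = 0 := hX
    have h2 : Ker V (act (p : 𝓞 F) X) := ih h1
    refine ker_red h hG hin ?_ h2
    have h3 : ak Ω (p : 𝓞 F) = (p : Ω) := by
      change algebraMap F Ω (algebraMap (𝓞 F) F (p : 𝓞 F)) = _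
      rw [map_natCast, map_natCast]
    rw [h3]
    exact hV

theorem pt (h : CMA F A B Om j act) (hG : GV A B V) (hin : Prime (p : 𝓞 F)) (hV : V.valuation (p : Ω) < 1) :
    ∃ T : ℕ → Pt (WAB A B) Ω, PtsT A B Om j act p V T := by
  choose T hT1 hT2 using fun N => pt_one (p := p) h N
  have hp0 : (p : 𝓞 F) ≠ 0 := Nat.cast_ne_zero.2 (Fact.out : p.Prime).ne_zero
  have hpC : (p : ℂ) ≠ 0 := Nat.cast_ne_zero.2 (Fact.out : p.Prime).ne_zero
  have hact1 : ∀ X : Pt (WAB A B) Ω, act 1 X = X := by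
    intro X
    rw [map_one]
    rfl
  have hactm : ∀ (a b : 𝓞 F) (X : Pt (WAB A B) Ω), act (a * b) X = act a (act b X) := by
    intro a b X
    rw [map_mul]
    rfl
  refine ⟨T, hT1, ?_, hT2, ?_⟩
  · intro N
    rcases Nat.eq_zero_or_pos N with hN | hN
    · subst hN
      have h1 : T 0 = 0 := by
        rw [← hact1 (T 0), hT1 0 1, pow_zero]
      rw [h1, hT1 (0 + 1)]
      rw [zero_add, pow_one, dvd_neg]
    · have h1 : act (-(p : 𝓞 F)) (T (N + 1)) ≠ 0 := by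
        rw [Ne, hT1 (N + 1), dvd_neg]
        intro hd
        have h2 : (p : 𝓞 F) ^ (N + 1) ∣ (p : 𝓞 F) ^ 1 := by rwa [pow_one]
        rw [pow_dvd_pow_iff hp0 hin.not_unit] at h2
        omega
      have h1' : ¬ (p : 𝓞 F) ^ (N + 1) ∣ -(p : 𝓞 F) := fun hd => h1 ((hT1 (N + 1) _).2 hd)
      have h2' : ¬ (p : 𝓞 F) ^ N ∣ 1 := by
        intro hd
        exact hin.not_unit (isUnit_pow_iff hN.ne' |>.1 (isUnit_of_dvd_one hd))
      have h2 : T N ≠ 0 := by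
        intro h0
        rw [← hact1 (T N), hT1 N 1] at h0
        exact h2' h0
      obtain ⟨h3, h4⟩ := hT2 (N + 1) _ h1'
      obtain ⟨h5, h6⟩ := hT2 N 1 h2'
      rw [hact1] at h5 h6
      have he : eF F (-(p : 𝓞 F)) / (-(p : ℂ)) ^ (N + 1) = eF F 1 / (-(p : ℂ)) ^ N := by
        rw [map_neg, map_natCast, map_one, pow_succ]
        have h7 : (-(p : ℂ)) ≠ 0 := neg_ne_zero.2 hpC
        field_simp
      rw [he] at h3 h4
      exact pt_ext h1 h2 (j.injective (h3.trans h5.symm)) (j.injective (h4.trans h6.symm))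
  · intro N a
    refine pt_ker h hG hin hV N (X := act a (T N)) ?_
    rw [← hactm, hT1 N]
    exact dvd_mul_right _ _

end SSG.LT
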