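import Mathlib

/-! # SSG/LT: the local ring of F at the inert prime p -/

open NumberField

namespace SSG.LT

variable {F : Type} [Field F] [NumberField F] {Ω : Type} [Field Ω] [Algebra F Ω]

/-! Chunk RV (M). V' = V.comap (algebraMap F Ω), a valuation ring of F with V'(p) < 1. PROOF. (0) V.valuation (x) ≤ 1 for integers (IsIntegral: H55K.ak_le is for its own setting; here: 𝓞 F elements are integral over ℤ and V' is integrally closed:
isIntegrallyClosed / `Valuation.Integers`; or import H13S.vw_int). The elements a of 𝓞 F with value < 1 form a proper prime ideal containing (p), which is maximal (a nonzero prime ideal of a Dedekind domain): so value < 1 iff p ∣ a.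
(1) rv_frac: every x in V' is a/b, a, b in 𝓞 F, p not dividing b: write x = a/b with b ≠ 0 (IsFractionRing / IsLocalization.mk' surj.) and cancel powers of p (finitely many: p^n ∣ b only for n ≤ N: `multiplicity`/
exists_pow_not_dvd: UniqueFactorizationMonoid is not available: use WfDvdMonoid of 𝓞 F (Noetherian domain): exists maximal n with p^n ∣ b, b = p^n b'; p ∤ b'; then x b' = a / p^n has value ≤ 1, so value of a ≤ value of p^n: then p^n ∣ a by
induction on n (value of a < 1 implies p ∣ a)). (2) rv_fermat: 𝓞 F ⧸ (p) is a finite field with p^2 elements (Ideal.absNorm of (p) = p ^ finrank = p^2: Ideal.absNorm_span_singleton, Algebra.norm_algebraMap / absNorm_span_natCast..;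
FiniteField.pow_card): p ∣ a^q - a for all a in 𝓞 F; for x = a/b: x^q - x = (a^q b - a b^q)/b^(q+1) and a^q b - a b^q = (a^q - a) b - a (b^q - b). Divisibility by -p in V' : y/(-p) in V'. (3) rv_unit: (-p)^n - 1 has value 1 in V' (value of
(-p)^n < 1): IsUnit. -/

omit [NumberField F] in
theorem rv_mem (V : ValuationSubring Ω) (x : F) : x ∈ V.comap (algebraMap F Ω) ↔ V.valuation (algebraMap F Ω x) ≤ 1 := by
  rw [ValuationSubring.mem_comap, V.valuation_le_one_iff]

omit [NumberField F] in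
theorem rv_int (V : ValuationSubring Ω) (a : 𝓞 F) : V.valuation (algebraMap F Ω (a : F)) ≤ 1 := by
  have h1 : IsIntegral ℤ (algebraMap F Ω (a : F)) := (RingOfIntegers.isIntegral_coe a).map (algebraMap F Ω).toIntAlgHom
  have h2 : IsIntegral V (algebraMap F Ω (a : F)) := h1.tower_top
  obtain ⟨y, hy⟩ := (IsIntegrallyClosed.isIntegral_iff (R := V) (K := Ω)).1 h2
  rw [V.valuation_le_one_iff, ← hy]
  exact y.2

omit [NumberField F] in
theorem rv_p (_V : ValuationSubring Ω) (p : ℕ) : algebraMap F Ω (((p : 𝓞 F) : 𝓞 F) : F) = (p : Ω) := by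
  have h : ((p : 𝓞 F) : F) = (p : F) := map_natCast (algebraMap (𝓞 F) F) p
  rw [h, map_natCast]

/-- Divisibility. -/
theorem rv_dvd (p : ℕ) (hp : p ≠ 0) [CharZero Ω] (V : ValuationSubring Ω) (x : V.comap (algebraMap F Ω))
    (h : V.valuation (algebraMap F Ω (x : F)) ≤ V.valuation (p : Ω)) :
    (-(p : V.comap (algebraMap F Ω))) ∣ x := by
  have hpF : (p : F) ≠ 0 := Nat.cast_ne_zero.2 hp
  have hpO : (p : Ω) ≠ 0 := Nat.cast_ne_zero.2 hp
  have hvp : V.valuation (p : Ω) ≠ 0 := (Valuation.ne_zero_iff _).2 hpO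
  have hy : -(x : F) / (p : F) ∈ V.comap (algebraMap F Ω) := by
    rw [rv_mem, map_div₀, map_neg, map_natCast, map_div₀, Valuation.map_neg]
    exact div_le_one_of_le₀ h zero_le
  refine ⟨⟨_, hy⟩, Subtype.ext ?_⟩
  show (x : F) = -((p : V.comap (algebraMap F Ω)) : F) * (-(x : F) / (p : F))
  have e : ((p : V.comap (algebraMap F Ω)) : F) = (p : F) := rfl
  rw [e]
  field_simp

/-- Units. -/
theorem rv_unit (p : ℕ) (V : ValuationSubring Ω) (hV : V.valuation (p : Ω) < 1) (n : ℕ) (hn : 1 ≤ n) :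
    IsUnit ((-(p : V.comap (algebraMap F Ω))) ^ n - 1) := by
  have h1 : V.valuation ((-(p : Ω)) ^ n - 1) = 1 := by
    rw [Valuation.map_sub_swap]
    refine Valuation.map_one_sub_of_lt _ ?_
    rw [map_pow, Valuation.map_neg]
    exact pow_lt_one₀ zero_le hV (by omega)
  have h2 : algebraMap F Ω ((-(p : F)) ^ n - 1) = (-(p : Ω)) ^ n - 1 := by
    rw [map_sub, map_pow, map_neg, map_natCast, map_one]
  have h3 : (-(p : F)) ^ n - 1 ≠ 0 := by
    intro h0
    rw [← h2, h0, map_zero, map_zero] at h1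
    exact zero_ne_one h1
  have h4 : ((-(p : F)) ^ n - 1)⁻¹ ∈ V.comap (algebraMap F Ω) := by
    rw [rv_mem, map_inv₀, h2, map_inv₀, h1, inv_one]
  refine IsUnit.of_mul_eq_one ⟨_, h4⟩ (Subtype.ext ?_)
  show ((-(p : F)) ^ n - 1) * ((-(p : F)) ^ n - 1)⁻¹ = 1
  exact mul_inv_cancel₀ h3

theorem rv_lt (p : ℕ) (hin : Prime (p : 𝓞 F)) (V : ValuationSubring Ω) (hV : V.valuation (p : Ω) < 1) (a : 𝓞 F) :
    V.valuation (algebraMap F Ω (a : F)) < 1 ↔ (p : 𝓞 F) ∣ a := by
  constructor
  · intro h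
    by_contra hd
    have h1 : (Ideal.span {(p : 𝓞 F)}).IsPrime := (Ideal.span_singleton_prime hin.ne_zero).2 hin
    have h2 : (Ideal.span {(p : 𝓞 F)}) ≠ ⊥ := fun h0 => hin.ne_zero (Ideal.span_singleton_eq_bot.1 h0)
    have h3 := h1.isMaximal h2
    obtain ⟨y, i, hi, hyi⟩ := h3.exists_inv (fun hm => hd (Ideal.mem_span_singleton.1 hm) :
      a ∉ Ideal.span {(p : 𝓞 F)})
    obtain ⟨c, rfl⟩ := Ideal.mem_span_singleton.1 hi
    have h4 : algebraMap F Ω (y : F) * algebraMap F Ω (a : F) + (p : Ω) * algebraMap F Ω (c : F) = 1 := by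
      have h6 := congrArg ((algebraMap F Ω).comp (algebraMap (𝓞 F) F)) hyi
      rw [map_add, map_mul, map_mul, map_one, map_natCast] at h6
      exact h6
    have h5 : V.valuation (1 : Ω) < 1 := by
      rw [← h4]
      refine V.valuation.map_add_lt ?_ ?_
      · rw [map_mul]
        exact (mul_le_of_le_one_left' (rv_int V y)).trans_lt h
      · rw [map_mul]
        exact (mul_le_of_le_one_right' (rv_int V c)).trans_lt hV
    rw [map_one] at h5
    exact lt_irrefl _ h5
  · rintro ⟨c, rfl⟩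
    have e : algebraMap F Ω (((p : 𝓞 F) * c : 𝓞 F) : F) = (p : Ω) * algebraMap F Ω (c : F) := by
      rw [← rv_p (F := F) V p, ← map_mul]
      rfl
    rw [e, map_mul]
    exact (mul_le_of_le_one_right' (rv_int V c)).trans_lt hV

theorem rv_frac (p : ℕ) (hin : Prime (p : 𝓞 F)) (V : ValuationSubring Ω) (hV : V.valuation (p : Ω) < 1) (n : ℕ) :
    ∀ a b : 𝓞 F, b ≠ 0 → ¬ (p : 𝓞 F) ^ n ∣ b →
      V.valuation (algebraMap F Ω (a : F)) ≤ V.valuation (algebraMap F Ω (b : F)) →
      ∃ a' b' : 𝓞 F, ¬ (p : 𝓞 F) ∣ b' ∧ a * b' = a' * b := by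
  have : CharZero Ω := charZero_of_injective_algebraMap (algebraMap F Ω).injective
  induction n with
  | zero =>
    intro a b _ h
    exact absurd (by rw [pow_zero]; exact one_dvd b) h
  | succ n ih =>
    intro a b hb h hab
    by_cases hpb : (p : 𝓞 F) ∣ b
    · have ha : (p : 𝓞 F) ∣ a := by
        rw [← rv_lt p hin V hV]
        exact hab.trans_lt ((rv_lt p hin V hV b).2 hpb)
      obtain ⟨b₁, rfl⟩ := hpb
      obtain ⟨a₁, rfl⟩ := ha
      have hb₁ : b₁ ≠ 0 := right_ne_zero_of_mul hb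
      have h1 : ¬ (p : 𝓞 F) ^ n ∣ b₁ := fun hd => h (by rw [pow_succ']; exact mul_dvd_mul_left _ hd)
      have e : ∀ c : 𝓞 F, V.valuation (algebraMap F Ω (((p : 𝓞 F) * c : 𝓞 F) : F)) =
          V.valuation (p : Ω) * V.valuation (algebraMap F Ω (c : F)) := by
        intro c
        rw [← map_mul, ← rv_p (F := F) V p, ← map_mul]
        rfl
      rw [e, e] at hab
      have hp0 : (p : Ω) ≠ 0 := by
        have h2 : (p : 𝓞 F) ≠ 0 := hin.ne_zero
        intro h0
        apply h2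
        have h3 : (p : ℕ) = 0 := Nat.cast_eq_zero.1 h0
        rw [h3, Nat.cast_zero]
      have hvp : 0 < V.valuation (p : Ω) := zero_lt_iff.2 ((Valuation.ne_zero_iff _).2 hp0)
      have h2 := (mul_le_mul_iff_right₀ hvp).1 hab
      obtain ⟨a', b', hb', hab'⟩ := ih a₁ b₁ hb₁ h1 h2
      exact ⟨a', b', hb', by linear_combination (p : 𝓞 F) * hab'⟩
    · exact ⟨a, b, hpb, rfl⟩

theorem rv_card (h2 : Module.finrank ℚ F = 2) (p : ℕ) (hp : p.Prime) (hin : Prime (p : 𝓞 F)) (a : 𝓞 F) :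
    (p : 𝓞 F) ∣ a ^ p ^ 2 - a := by
  classical
  have h1 : (Ideal.span {(p : 𝓞 F)}).IsPrime := (Ideal.span_singleton_prime hin.ne_zero).2 hin
  have hb : (Ideal.span {(p : 𝓞 F)}) ≠ ⊥ := fun h0 => hin.ne_zero (Ideal.span_singleton_eq_bot.1 h0)
  have h3 : (Ideal.span {(p : 𝓞 F)}).IsMaximal := h1.isMaximal hb
  let : Field (𝓞 F ⧸ Ideal.span {(p : 𝓞 F)}) := Ideal.Quotient.field _
  have hc : Nat.card (𝓞 F ⧸ Ideal.span {(p : 𝓞 F)}) = p ^ 2 := by
    have h4 : Ideal.absNorm (Ideal.span {(p : 𝓞 F)}) = p ^ 2 := by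
      rw [Ideal.absNorm_span_singleton]
      have h5 : (p : 𝓞 F) = algebraMap ℤ (𝓞 F) (p : ℤ) := by simp
      rw [h5, Algebra.norm_algebraMap, RingOfIntegers.rank, h2, Int.natAbs_pow, Int.natAbs_natCast]
    rw [← h4, Ideal.absNorm_apply, Submodule.cardQuot_apply]
  have : Finite (𝓞 F ⧸ Ideal.span {(p : 𝓞 F)}) := Nat.finite_of_card_ne_zero (by
    rw [hc]
    exact pow_ne_zero 2 hp.ne_zero)
  have : Fintype (𝓞 F ⧸ Ideal.span {(p : 𝓞 F)}) := Fintype.ofFinite _
  have h6 := FiniteField.pow_card (Ideal.Quotient.mk (Ideal.span {(p : 𝓞 F)}) a)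
  rw [← Nat.card_eq_fintype_card, hc] at h6
  rw [← Ideal.mem_span_singleton, ← Ideal.Quotient.eq_zero_iff_mem, map_sub, map_pow, h6, sub_self]

/-- Fermat. -/
theorem rv_fermat (h2 : Module.finrank ℚ F = 2) (p : ℕ) (hp : p.Prime) (hin : Prime (p : 𝓞 F)) (V : ValuationSubring Ω)
    (hV : V.valuation (p : Ω) < 1) (x : V.comap (algebraMap F Ω)) :
    (-(p : V.comap (algebraMap F Ω))) ∣ x ^ p ^ 2 - x := by
  have : CharZero Ω := charZero_of_injective_algebraMap (algebraMap F Ω).injective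
  refine rv_dvd p hp.ne_zero V _ ?_
  obtain ⟨x, hx⟩ := x
  rw [rv_mem] at hx
  show V.valuation (algebraMap F Ω (x ^ p ^ 2 - x)) ≤ V.valuation (p : Ω)
  set q := p ^ 2 with hq
  obtain ⟨a, b, hb0, rfl⟩ := IsFractionRing.div_surjective (A := 𝓞 F) x
  have hb : b ≠ 0 := nonZeroDivisors.ne_zero hb0
  have hbF : (b : F) ≠ 0 := fun h0 => hb (RingOfIntegers.coe_injective (h0.trans (map_zero _).symm))
  have hbO : algebraMap F Ω (b : F) ≠ 0 := (map_ne_zero _).2 hbF
  have hvb : 0 < V.valuation (algebraMap F Ω (b : F)) := zero_lt_iff.2 ((Valuation.ne_zero_iff _).2 hbO)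
  have hab : V.valuation (algebraMap F Ω (a : F)) ≤ V.valuation (algebraMap F Ω (b : F)) := by
    have h3 : V.valuation (algebraMap F Ω ((a : F) / (b : F))) ≤ 1 := hx
    rw [map_div₀, map_div₀] at h3
    exact (div_le_one₀ hvb).1 h3
  obtain ⟨n, hn⟩ := FiniteMultiplicity.of_not_isUnit hin.not_isUnit hb
  obtain ⟨a', b', hb', he⟩ := rv_frac p hin V hV (n + 1) a b hb hn hab
  have hb'0 : b' ≠ 0 := by
    rintro rfl
    exact hb' (dvd_zero _)
  have hb'F : (b' : F) ≠ 0 := fun h0 => hb'0 (RingOfIntegers.coe_injective (h0.trans (map_zero _).symm))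
  have hvb' : V.valuation (algebraMap F Ω (b' : F)) = 1 :=
    le_antisymm (rv_int V b') (not_lt.1 fun h => hb' ((rv_lt p hin V hV b').1 h))
  have hx' : (algebraMap (𝓞 F) F a) / (algebraMap (𝓞 F) F b) = (a' : F) / (b' : F) := by
    rw [div_eq_div_iff hbF hb'F]
    have := congrArg (fun z : 𝓞 F => (z : F)) he
    push_cast at this
    exact this
  rw [hx']
  obtain ⟨c, hc⟩ := rv_card h2 p hp hin a'
  obtain ⟨d, hd⟩ := rv_card h2 p hp hin b'
  rw [← hq] at hc hd
  have hcF : (a' : F) ^ q - (a' : F) = (p : F) * (c : F) := by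
    have := congrArg (fun z : 𝓞 F => (z : F)) hc
    push_cast at this
    exact this
  have hdF : (b' : F) ^ q - (b' : F) = (p : F) * (d : F) := by
    have := congrArg (fun z : 𝓞 F => (z : F)) hd
    push_cast at this
    exact this
  have e : ((a' : F) / (b' : F)) ^ q - (a' : F) / (b' : F) =
      (p : F) * ((c * b' - a' * d : 𝓞 F) : F) / (b' : F) ^ (q + 1) := by
    rw [div_pow, pow_succ]
    push_cast
    field_simp
    linear_combination (b' : F) * hcF - (a' : F) * hdF
  rw [e, map_div₀, map_mul, map_pow, map_natCast, map_div₀, map_mul, map_pow, hvb', one_pow, div_one]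
  exact mul_le_of_le_one_right' (rv_int V _)

end SSG.LT
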