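import Mathlib

/-! # SSG/LT: the Lubin-Tate series theta (algebra) -/

open PowerSeries

namespace SSG.LT

variable {R : Type} [CommRing R]

/-- The polynomial with the first coefficients `a 0, ..., a (n - 1)`. -/
noncomputable def TT (a : ℕ → R) (n : ℕ) : Polynomial R :=
  ∑ k ∈ Finset.range n, Polynomial.C (a k) * Polynomial.X ^ k

/-- The defect of the functional equation `T (f) = π T + T ^ q`. -/
noncomputable def De (π : R) (q : ℕ) (f : R⟦X⟧) (T : Polynomial R) : R⟦X⟧ :=
  T.eval₂ C f - (C π * (T : R⟦X⟧) + (T : R⟦X⟧) ^ q)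

/-! Chunk TH1 (M). PROOF. S := R ⧸ (π), characteristic p (or S trivial: then everything is 0, Ideal.Quotient.eq_zero_iff_dvd / subsingleton): if S is nontrivial then CharP S p
(charP_of_prime..: (p : S) = 0 and p prime: CharP.of_prime? use `CharP.charP_iff_prime_eq_zero`). Let red : R →+* S and redX = PowerSeries.map red. It is enough: redX (De π q f T) = 0 (then every coefficient is
0 in S: Ideal.Quotient.eq_zero_iff_mem, mem_span_singleton). redX f = X ^ q (coefficientwise from fq, fq'; coeff_X_pow). redX (T.eval₂ C f) = (T.map red).eval₂ C (X ^ q) (Polynomial.hom_eval₂, eval₂_map) =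
the power series of Polynomial.expand S q (T.map red). And (T.map red) ^ q = expand q (T.map red): Polynomial.map_expand_pow_char / map_iterateFrobenius_expand: map (frobenius ^ e) (expand S (p ^ e) g) = g ^ (p ^ e),
and the map is the identity because x ^ q = x in S (h1, Ideal.Quotient.mk_surjective). -/

/-- The defect is divisible by `π`. -/
theorem th1_dvd {π : R} {p e : ℕ} (hp : p.Prime) (h1 : ∀ x : R, π ∣ x ^ p ^ e - x) (h2 : π ∣ (p : R))
    {f : R⟦X⟧} (fq : ∀ n, n ≠ p ^ e → π ∣ coeff n f) (fq' : π ∣ coeff (p ^ e) f - 1)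
    (T : Polynomial R) (n : ℕ) : π ∣ coeff n (De π (p ^ e) f T) := by
  set red := Ideal.Quotient.mk (Ideal.span ({π} : Set R)) with hred
  have hmem : ∀ x : R, red x = 0 ↔ π ∣ x := fun x => Ideal.Quotient.eq_zero_iff_dvd π x
  rw [← hmem]
  rcases subsingleton_or_nontrivial (R ⧸ Ideal.span ({π} : Set R)) with hS | hS
  · exact Subsingleton.elim _ _
  have : Fact p.Prime := ⟨hp⟩
  have : CharP (R ⧸ Ideal.span ({π} : Set R)) p := by
    apply (CharP.charP_iff_prime_eq_zero hp).2
    have h3 := (hmem (p : R)).2 h2
    rw [map_natCast] at h3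
    exact h3
  have h3 : PowerSeries.map red (De π (p ^ e) f T) = 0 := by
    have hf : PowerSeries.map red f = X ^ (p ^ e) := by
      ext m
      rw [coeff_map, coeff_X_pow]
      split_ifs with hm
      · rw [hm]
        have h4 := (hmem _).2 fq'
        rw [map_sub, map_one, sub_eq_zero] at h4
        exact h4
      · exact (hmem _).2 (fq m hm)
    have hpi : red π = 0 := (hmem π).2 (dvd_refl π)
    unfold De
    rw [map_sub, map_add, map_mul, PowerSeries.map_C, hpi, map_zero, zero_mul, zero_add, map_pow,
      sub_eq_zero, Polynomial.hom_eval₂, hf]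
    have hcomp : (PowerSeries.map red).comp (C (R := R)) = (C).comp red := by
      ext x
      simp
    rw [hcomp, ← Polynomial.eval₂_map, ← Polynomial.polynomial_map_coe]
    set g := Polynomial.map red T with hg
    have hpow : g ^ (p ^ e) = Polynomial.expand _ (p ^ e) g := by
      rw [← Polynomial.map_iterateFrobenius_expand p g e]
      have h5 : iterateFrobenius (R ⧸ Ideal.span ({π} : Set R)) p e = RingHom.id _ := by
        refine RingHom.ext fun x => ?_
        obtain ⟨y, hy⟩ := Ideal.Quotient.mk_surjective x
        rw [iterateFrobenius_def, ← hy]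
        have h6 := (hmem _).2 (h1 y)
        rw [map_sub, map_pow, sub_eq_zero] at h6
        exact h6
      rw [h5, Polynomial.map_id]
    rw [← Polynomial.coe_pow, hpow, Polynomial.expand_eq_sum, Polynomial.eval₂_def,
      Polynomial.sum_def, Polynomial.sum_def, ← Polynomial.coeToPowerSeries.ringHom_apply, map_sum]
    refine Finset.sum_congr rfl fun i _ => ?_
    rw [map_mul, map_pow, Polynomial.coeToPowerSeries.ringHom_apply,
      Polynomial.coeToPowerSeries.ringHom_apply, Polynomial.coe_C, Polynomial.coe_pow,
      Polynomial.coe_X]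
  have h4 := congrArg (coeff n) h3
  rw [coeff_map, map_zero] at h4
  exact h4

end SSG.LT
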