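import Mathlib
import Pool.Agent.Lib.SSG.LT.TH1

/-! # SSG/LT: the Lubin-Tate series theta (algebra) -/

open PowerSeries

namespace SSG.LT

variable {R : Type} [CommRing R]

/-! Chunk TH2 (M). PROOF. (T + c X^n).eval₂ C f - T.eval₂ C f = C c * f ^ n, and the coefficient n of f ^ n is π ^ n, the lower coefficients are 0 (f = X * g with constant coefficient of g equal to π: X_dvd_iff, f ^ n = X ^ n g ^ n,
coeff_X_pow_mul'). C π * (c X ^ n). (T + c X^n)^q - T^q is divisible by (c X^n) (..) where (..) = sum of products of q - 1 factors T or T + c X^n, all divisible by X: sub_dvd_pow_sub_pow / Commute.geom_sum₂_mul: T = X * T',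
n ≥ 2 and q ≥ 2: so it is divisible by X ^ (n + 1). -/

/-- The coefficient of degree `n` of the defect after adding `c X^n`; the lower ones do not change. -/
theorem th2_coeff {π : R} {q n : ℕ} (hq : 2 ≤ q) (hn : 2 ≤ n) {f : R⟦X⟧} (f0 : constantCoeff f = 0) (f1 : coeff 1 f = π)
    {T : Polynomial R} (hT : T.coeff 0 = 0) (c : R) :
    (∀ k < n, coeff k (De π q f (T + Polynomial.C c * Polynomial.X ^ n)) = coeff k (De π q f T)) ∧
      coeff n (De π q f (T + Polynomial.C c * Polynomial.X ^ n)) = coeff n (De π q f T) + c * (π ^ n - π) := by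
  set Y : R⟦X⟧ := C c * X ^ n with hY
  set t : R⟦X⟧ := (T : R⟦X⟧) with ht
  have hXt : (X : R⟦X⟧) ∣ t := by
    rw [X_dvd_iff, ht, Polynomial.constantCoeff_coe, hT]
  have hXY : (X : R⟦X⟧) ∣ Y := by
    rw [hY]
    exact Dvd.dvd.mul_left (dvd_pow_self X (by omega)) _
  have hpow : (X : R⟦X⟧) ^ (n + 1) ∣ (t + Y) ^ q - t ^ q := by
    have h1 := (Commute.all (t + Y) t).mul_geom_sum₂ q
    rw [← h1, add_sub_cancel_left, hY, pow_succ]
    refine mul_dvd_mul (Dvd.intro_left (C c) rfl) (Finset.dvd_sum fun i hi => ?_)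
    have hi' := Finset.mem_range.1 hi
    rcases Nat.eq_zero_or_pos i with h0 | h0
    · refine Dvd.dvd.mul_left (hXt.trans (dvd_pow_self t ?_)) _
      omega
    · exact Dvd.dvd.mul_right ((dvd_add hXt hXY).trans (dvd_pow_self _ (by omega))) _
  have hsplit : De π q f (T + Polynomial.C c * Polynomial.X ^ n) =
      De π q f T + (C c * f ^ n - C π * Y - ((t + Y) ^ q - t ^ q)) := by
    unfold De
    rw [Polynomial.eval₂_add, Polynomial.eval₂_mul, Polynomial.eval₂_C, Polynomial.eval₂_X_pow,
      Polynomial.coe_add, Polynomial.coe_mul, Polynomial.coe_C, Polynomial.coe_pow,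
      Polynomial.coe_X]
    rw [← hY, ← ht]
    ring
  obtain ⟨g, hg⟩ := X_dvd_iff.2 f0
  have hg0 : constantCoeff g = π := by
    rw [← f1, hg, coeff_succ_X_mul 0 g, coeff_zero_eq_constantCoeff_apply]
  have hfn : f ^ n = X ^ n * g ^ n := by
    rw [hg, mul_pow]
  obtain ⟨w, hw⟩ := hpow
  constructor
  · intro k hk
    rw [hsplit, map_add, map_sub, map_sub, coeff_C_mul, hfn, coeff_X_pow_mul', if_neg (by omega),
      coeff_C_mul, hY, coeff_C_mul, coeff_X_pow, if_neg (by omega), hw, coeff_X_pow_mul',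
      if_neg (by omega)]
    ring
  · rw [hsplit, map_add, map_sub, map_sub, coeff_C_mul, hfn, coeff_X_pow_mul', if_pos (le_refl n),
      coeff_C_mul, hY, coeff_C_mul, coeff_X_pow, if_pos rfl, hw, coeff_X_pow_mul',
      if_neg (by omega), Nat.sub_self, coeff_zero_eq_constantCoeff_apply, map_pow, hg0]
    ring

end SSG.LT
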