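import Mathlib
import Pool.Agent.Lib.SSG.LT.TH2

/-! # SSG/LT: the Lubin-Tate series theta (algebra) -/

open PowerSeries

namespace SSG.LT

variable {R : Type} [CommRing R]

/-! Chunk TH3 (M). PROOF. First the step: for T with T.coeff 0 = 0 and all coefficients of De T of degree < n equal to 0 (n ≥ 2) there is c with the same for T + c X^n and n + 1: th1_dvd: coeff n (De T) = π d;
π ^ n - π = π (π ^ (n-1) - 1), u = π ^ (n-1) - 1 is a unit (h3): c = - d u^-1 (th2_coeff). Then the sequence: by recursion choose T' : ℕ → {T : Polynomial R // T.coeff 0 = 0 ∧ ∀ k < m + 2, coeff k (De T) = 0},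
T' 0 = X (De X = f - π X - X ^ q: the coefficients 0 and 1 vanish, q ≥ 2), T' (m + 1) = T' m + C (c m) X ^ (m + 2) (Classical.choose); a 0 = 0, a 1 = 1, a (m + 2) = c m; TT a (m + 2) = T' m by induction (Finset.sum_range_succ).
Finally X ^ n ∣ De (TT a n): X_pow_dvd_iff; n = 0, 1: clear (TT a 0 = 0: De 0 = 0 as q ≥ 1; TT a 1 = C 0 * 1 = 0). -/

/-- The Lubin-Tate lemma: the series `θ = sum a_n X^n` with `θ (f) = π θ + θ ^ q`. -/
theorem exists_theta {π : R} {p e : ℕ} (hp : p.Prime) (he : 1 ≤ e) (h1 : ∀ x : R, π ∣ x ^ p ^ e - x) (h2 : π ∣ (p : R))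
    (h3 : ∀ n, 1 ≤ n → IsUnit (π ^ n - 1)) {f : R⟦X⟧} (f0 : constantCoeff f = 0) (f1 : coeff 1 f = π)
    (fq : ∀ n, n ≠ p ^ e → π ∣ coeff n f) (fq' : π ∣ coeff (p ^ e) f - 1) :
    ∃ a : ℕ → R, a 0 = 0 ∧ a 1 = 1 ∧ ∀ n, (X : R⟦X⟧) ^ n ∣ De π (p ^ e) f (TT a n) := by
  classical
  have hq : 2 ≤ p ^ e := by
    calc 2 ≤ p := hp.two_le
      _ = p ^ 1 := (pow_one p).symm
      _ ≤ p ^ e := Nat.pow_le_pow_right hp.pos he
  let P : ℕ → Polynomial R → Prop := fun m T => T.coeff 0 = 0 ∧ ∀ k < m + 2, coeff k (De π (p ^ e) f T) = 0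
  have step : ∀ (m : ℕ) (T : {T : Polynomial R // P m T}), ∃ c : R, P (m + 1) (T.1 + Polynomial.C c * Polynomial.X ^ (m + 2)) := by
    rintro m ⟨T, hT0, hT⟩
    obtain ⟨d, hd⟩ := th1_dvd hp h1 h2 fq fq' T (m + 2)
    obtain ⟨u, hu⟩ := h3 (m + 1) (by omega)
    refine ⟨-(d * ((u⁻¹ : Rˣ) : R)), ?_, ?_⟩
    · show (T + Polynomial.C (-(d * ((u⁻¹ : Rˣ) : R))) * Polynomial.X ^ (m + 2)).coeff 0 = 0
      rw [Polynomial.coeff_add, hT0, Polynomial.coeff_C_mul, Polynomial.coeff_X_pow, if_neg (by omega), mul_zero, add_zero]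
    · intro k hk
      have h4 := th2_coeff hq (show 2 ≤ m + 2 by omega) f0 f1 hT0 (-(d * ((u⁻¹ : Rˣ) : R)))
      rcases Nat.lt_or_ge k (m + 2) with h5 | h5
      · exact (h4.1 k h5).trans (hT k h5)
      · have h6 : k = m + 2 := by omega
        rw [h6]
        refine h4.2.trans ?_
        have h7 : π ^ (m + 2) - π = π * (u : R) := by
          rw [hu]
          ring
        rw [hd, h7]
        have h8 : ((u⁻¹ : Rˣ) : R) * (u : R) = 1 := u.inv_mul
        calc π * d + -(d * ((u⁻¹ : Rˣ) : R)) * (π * (u : R)) = π * d - π * d * (((u⁻¹ : Rˣ) : R) * (u : R)) := by ring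
          _ = 0 := by rw [h8, mul_one, sub_self]
  choose cf hcf using step
  have base : P 0 (Polynomial.X : Polynomial R) := by
    refine ⟨Polynomial.coeff_X_zero, ?_⟩
    intro k hk
    have h4 : De π (p ^ e) f (Polynomial.X : Polynomial R) = f - (C π * X + X ^ (p ^ e)) := by
      unfold De
      rw [Polynomial.eval₂_X, Polynomial.coe_X]
    rw [h4, map_sub, map_add, coeff_C_mul, coeff_X_pow, coeff_X, if_neg (show k ≠ p ^ e by omega), add_zero]
    have h5 : k = 0 ∨ k = 1 := by omega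
    rcases h5 with rfl | rfl
    · rw [coeff_zero_eq_constantCoeff_apply, f0, if_neg (by norm_num), mul_zero, sub_zero]
    · rw [f1, if_pos rfl, mul_one, sub_self]
  let S : ∀ m : ℕ, {T : Polynomial R // P m T} := fun m => Nat.rec (motive := fun m => {T : Polynomial R // P m T})
    ⟨Polynomial.X, base⟩ (fun m T => ⟨T.1 + Polynomial.C (cf m T) * Polynomial.X ^ (m + 2), hcf m T⟩) m
  have hS : ∀ m, (S (m + 1)).1 = (S m).1 + Polynomial.C (cf m (S m)) * Polynomial.X ^ (m + 2) := fun m => rfl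
  let a : ℕ → R := fun n => Nat.casesOn n 0 (fun n => Nat.casesOn n 1 fun m => cf m (S m))
  have ha : ∀ m, a (m + 2) = cf m (S m) := fun m => rfl
  have hTT : ∀ m, TT a (m + 2) = (S m).1 := by
    intro m
    induction m with
    | zero =>
      unfold TT
      rw [Finset.sum_range_succ, Finset.sum_range_succ, Finset.sum_range_zero]
      show 0 + Polynomial.C (0 : R) * Polynomial.X ^ 0 + Polynomial.C (1 : R) * Polynomial.X ^ 1 = Polynomial.X
      rw [map_zero, map_one, zero_mul, zero_add, one_mul, pow_one, zero_add]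
    | succ m ih =>
      rw [hS, ← ih, ← ha]
      unfold TT
      rw [Finset.sum_range_succ _ (m + 2)]
  refine ⟨a, rfl, rfl, fun n => ?_⟩
  rw [X_pow_dvd_iff]
  intro k hk
  rcases Nat.lt_or_ge n 2 with hn | hn
  · have h4 : n = 1 := by omega
    subst h4
    have h5 : k = 0 := by omega
    subst h5
    have h6 : TT a 1 = 0 := by
      unfold TT
      rw [Finset.sum_range_one]
      show Polynomial.C (0 : R) * Polynomial.X ^ 0 = 0
      rw [map_zero, zero_mul]
    have h7 : De π (p ^ e) f 0 = 0 := by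
      unfold De
      rw [Polynomial.eval₂_zero, Polynomial.coe_zero, mul_zero, zero_pow (by omega), add_zero, sub_zero]
    rw [h6, h7, map_zero]
  · obtain ⟨m, rfl⟩ := Nat.exists_eq_add_of_le hn
    rw [add_comm 2 m] at hk ⊢
    rw [hTT m]
    exact (S m).2.2 k hk

end SSG.LT
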