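import Mathlib
import Pool.Agent.Lib.SSG.LT.TH1
import Pool.Agent.Lib.SSG.LT.FC2

set_option linter.unusedSectionVars false

/-! # SSG/LT: the values of theta -/

namespace SSG.LT

variable {C : Type} [NormedField C] [IsUltrametricDist C] [CompleteSpace C] {R : Type} [CommRing R]

/-! Chunk TV (M). PROOF. T_n = TT a n. (1) T_n.eval₂ φ z = sum over k < n of φ (a k) z ^ k (Polynomial.eval₂_finset_sum), so ‖sv z - T_n(z)‖ ≤ ‖z‖ ^ n (sv_trunc), the same at w = ev f (‖w‖ ≤ ‖z‖ < 1: ev_apply, sv_dvd with n = 1,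
constantCoeff f = 0). (2) ‖ev (De π q f T_n)‖ ≤ ‖z‖ ^ n (ev_dvd), and ev (De ..) = T_n(w) - (φ π T_n(z) + T_n(z) ^ q) (ev_aeval, ev_C; ev (T : R⟦X⟧) = T.eval₂ φ z: Polynomial.coe is eval₂ C X: Polynomial.eval₂_C_X_eq_coe, ev_X).
(3) ‖x ^ q - y ^ q‖ ≤ ‖x - y‖ for ‖x‖, ‖y‖ ≤ 1 (geom_sum₂_mul, IsUltrametricDist.norm_sum_le_of_forall_le_of_nonneg). So ‖sv w - (φ π sv z + (sv z) ^ q)‖ ≤ ‖z‖ ^ n for all n: it is 0 (tendsto_pow_atTop_nhds_zero_of_lt_one). -/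

theorem tv_eval (φ : R →+* C) (a : ℕ → R) (n : ℕ) (z : C) :
    (TT a n).eval₂ φ z = ∑ k ∈ Finset.range n, φ (a k) * z ^ k := by
  unfold TT
  rw [Polynomial.eval₂_finsetSum]
  refine Finset.sum_congr rfl fun k _ => ?_
  rw [Polynomial.eval₂_mul, Polynomial.eval₂_C, Polynomial.eval₂_X_pow]

theorem tv_pow {x y : C} (hx : ‖x‖ ≤ 1) (hy : ‖y‖ ≤ 1) (q : ℕ) : ‖x ^ q - y ^ q‖ ≤ ‖x - y‖ := by
  rw [← geom_sum₂_mul, norm_mul]
  refine mul_le_of_le_one_left (norm_nonneg _) ?_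
  refine IsUltrametricDist.norm_sum_le_of_forall_le_of_nonneg zero_le_one fun i _ => ?_
  rw [norm_mul, norm_pow, norm_pow]
  exact mul_le_one₀ (pow_le_one₀ (norm_nonneg _) hx) (by positivity) (pow_le_one₀ (norm_nonneg _) hy)

theorem tv_max {x y : C} {ε : ℝ} (hx : ‖x‖ ≤ ε) (hy : ‖y‖ ≤ ε) : ‖x + y‖ ≤ ε :=
  (IsUltrametricDist.norm_add_le_max x y).trans (max_le hx hy)

/-- The functional equation of the values. -/
theorem theta_val (φ : R →+* C) (hφ : ∀ r, ‖φ r‖ ≤ 1) {z : C} (hz : ‖z‖ < 1) {π : R} {q : ℕ}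
    {f : PowerSeries R} (f0 : PowerSeries.constantCoeff f = 0) {a : ℕ → R}
    (ha : ∀ n, (PowerSeries.X : PowerSeries R) ^ n ∣ De π q f (TT a n)) :
    sv (fun n => φ (a n)) (ev φ hφ hz f) =
      φ π * sv (fun n => φ (a n)) z + sv (fun n => φ (a n)) z ^ q := by
  set w := ev φ hφ hz f with hw
  have hwz : ‖w‖ ≤ ‖z‖ := by
    have h1 : (PowerSeries.X : PowerSeries R) ^ 1 ∣ f := by
      rw [pow_one, PowerSeries.X_dvd_iff]
      exact f0
    have h2 := ev_dvd φ hφ hz h1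
    rwa [pow_one] at h2
  have hw1 : ‖w‖ < 1 := hwz.trans_lt hz
  have hA : ∀ n, ‖φ (a n)‖ ≤ 1 := fun n => hφ _
  have hs1 : ‖sv (fun n => φ (a n)) z‖ ≤ 1 := sv_le_one hA hz
  have key : ∀ n : ℕ, ‖sv (fun n => φ (a n)) w - (φ π * sv (fun n => φ (a n)) z + sv (fun n => φ (a n)) z ^ q)‖ ≤
      ‖z‖ ^ n := by
    intro n
    have hzn : ‖z‖ ^ n ≤ 1 := pow_le_one₀ (norm_nonneg _) hz.le
    have h1 : ‖sv (fun n => φ (a n)) z - (TT a n).eval₂ φ z‖ ≤ ‖z‖ ^ n := by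
      rw [tv_eval]
      exact sv_trunc hA hz n
    have h2 : ‖sv (fun n => φ (a n)) w - (TT a n).eval₂ φ w‖ ≤ ‖z‖ ^ n := by
      rw [tv_eval]
      exact (sv_trunc hA hw1 n).trans (pow_le_pow_left₀ (norm_nonneg _) hwz n)
    have hT1 : ‖(TT a n).eval₂ φ z‖ ≤ 1 := by
      have e : (TT a n).eval₂ φ z = sv (fun n => φ (a n)) z + -(sv (fun n => φ (a n)) z - (TT a n).eval₂ φ z) := by
        ring
      rw [e]
      refine tv_max hs1 ?_
      rw [norm_neg]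
      exact h1.trans hzn
    have h3 : ‖(TT a n).eval₂ φ w - (φ π * (TT a n).eval₂ φ z + (TT a n).eval₂ φ z ^ q)‖ ≤ ‖z‖ ^ n := by
      have h4 := ev_dvd φ hφ hz (ha n)
      have h5 : ev φ hφ hz (De π q f (TT a n)) =
          (TT a n).eval₂ φ w - (φ π * (TT a n).eval₂ φ z + (TT a n).eval₂ φ z ^ q) := by
        unfold De
        have h6 : ev φ hφ hz ((TT a n : Polynomial R) : PowerSeries R) = (TT a n).eval₂ φ z := by
          have h7 := ev_aeval φ hφ hz (TT a n) PowerSeries.X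
          rw [ev_X] at h7
          rw [← h7, Polynomial.eval₂_C_X_eq_coe]
        rw [map_sub, map_add, map_mul, map_pow, ev_aeval, ev_C, h6]
      rw [← h5]
      exact h4
    have e : sv (fun n => φ (a n)) w - (φ π * sv (fun n => φ (a n)) z + sv (fun n => φ (a n)) z ^ q) =
        (sv (fun n => φ (a n)) w - (TT a n).eval₂ φ w) +
        (((TT a n).eval₂ φ w - (φ π * (TT a n).eval₂ φ z + (TT a n).eval₂ φ z ^ q)) +
        (-(φ π * (sv (fun n => φ (a n)) z - (TT a n).eval₂ φ z)) +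
          -(sv (fun n => φ (a n)) z ^ q - (TT a n).eval₂ φ z ^ q))) := by ring
    rw [e]
    refine tv_max h2 (tv_max h3 (tv_max ?_ ?_))
    · rw [norm_neg, norm_mul]
      exact (mul_le_of_le_one_left (norm_nonneg _) (hφ π)).trans h1
    · rw [norm_neg]
      exact (tv_pow hs1 hT1 q).trans h1
  have hlim := tendsto_pow_atTop_nhds_zero_of_lt_one (norm_nonneg z) hz
  have h0 := ge_of_tendsto' hlim key
  exact sub_eq_zero.1 (norm_le_zero_iff.1 h0)

end SSG.LT
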