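import Mathlib
import Pool.Agent.Lib.SSG.LT.D
import Pool.Agent.Lib.SSG.LT.TH3
import Pool.Agent.Lib.SSG.LT.TV
import Pool.Agent.Lib.SSG.LT.RV

/-! # SSG/LT: theta for the curve -/

open NumberField IsDedekindDomain WeierstrassCurve

namespace SSG.LT

open H55P (IQ embF eF LF Per IsHecke Pt ac Inert Dec)
open H35P (WAB Ker tt)
open H55K

/-! Chunk XM2 (M). PROOF. R = V.comap (algebraMap F Ω) (a valuation ring of F), φ : R →+* C, x ↦ i (algebraMap F Ω x), norm ≤ 1 (hi). f' : R⟦X⟧ = PowerSeries.mk (fun n => ⟨coeff n f, _⟩) (value ≤ 1: n = 0: f0, n = p^2: coeff - 1 has value ≤ V p < 1, other n: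
≤ V p; n = 1: -p). exists_theta for π = -p, e = 2 (rv_fermat with IQ.deg, π ∣ p, rv_unit, rv_dvd for fq, fq'): the sequence a' : ℕ → R; a n = (a' n : F). theta_val at z = i (tt P) (‖z‖ < 1 because V(tt P) < 1: hypothesis hlt):
ev φ f' z = ∑' n, i (coeff n f) z^n = i (tt (-(p • P))) by hf (HasSum.tsum_eq). φ(-p) = -p. -/

theorem xm2 {F : Type} [Field F] [NumberField F] [IQ F] {A B : F} {Ω : Type} [Field Ω] [CharZero Ω] [DecidableEq Ω]
    [Algebra F Ω] {V : ValuationSubring Ω} {C : Type} [NormedField C] [IsUltrametricDist C] [CompleteSpace C]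
    (i : Ω →+* C) (hi : ∀ x, x ∈ V ↔ ‖i x‖ ≤ 1) {p : ℕ} [Fact p.Prime] (hin : Prime (p : 𝓞 F))
    (hV : V.valuation (p : Ω) < 1) {f : PowerSeries F} (f0 : PowerSeries.constantCoeff f = 0)
    (f1 : PowerSeries.coeff 1 f = -(p : F))
    (fV : ∀ n, n ≠ p ^ 2 → V.valuation (algebraMap F Ω (PowerSeries.coeff n f)) ≤ V.valuation (p : Ω))
    (fq : V.valuation (algebraMap F Ω (PowerSeries.coeff (p ^ 2) f) - 1) ≤ V.valuation (p : Ω))
    (hlt : ∀ P : Pt (WAB A B) Ω, Ker V P → ‖i (tt P)‖ < 1)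
    (hf : ∀ P : Pt (WAB A B) Ω, Ker V P → HasSum (fun n => i (algebraMap F Ω (PowerSeries.coeff n f)) * i (tt P) ^ n)
      (i (tt (-(p • P))))) :
    ∃ a : ℕ → F, a 0 = 0 ∧ a 1 = 1 ∧ (∀ n, ‖i (algebraMap F Ω (a n))‖ ≤ 1) ∧ ∀ P : Pt (WAB A B) Ω, Ker V P →
      sv (fun n => i (algebraMap F Ω (a n))) (i (tt (-(p • P)))) =
        -(p : C) * sv (fun n => i (algebraMap F Ω (a n))) (i (tt P)) +
          sv (fun n => i (algebraMap F Ω (a n))) (i (tt P)) ^ (p ^ 2) := by
  have hp : p.Prime := Fact.out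
  have hmem : ∀ n, PowerSeries.coeff n f ∈ V.comap (algebraMap F Ω) := by
    intro n
    rw [rv_mem]
    by_cases hn : n = p ^ 2
    · rw [hn]
      have e : algebraMap F Ω (PowerSeries.coeff (p ^ 2) f) = (algebraMap F Ω (PowerSeries.coeff (p ^ 2) f) - 1) + 1 := by
        ring
      rw [e]
      exact V.valuation.map_add_le (fq.trans hV.le) (by rw [map_one])
    · exact (fV n hn).trans hV.le
  let φ : V.comap (algebraMap F Ω) →+* C := i.comp ((algebraMap F Ω).comp (V.comap (algebraMap F Ω)).subtype)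
  have hφe : ∀ r : V.comap (algebraMap F Ω), φ r = i (algebraMap F Ω (r : F)) := fun r => rfl
  have hφ : ∀ r, ‖φ r‖ ≤ 1 := by
    intro r
    rw [hφe, ← hi]
    exact ValuationSubring.mem_comap.1 r.2
  let f' : PowerSeries (V.comap (algebraMap F Ω)) := PowerSeries.mk fun n => ⟨PowerSeries.coeff n f, hmem n⟩
  have hf' : ∀ n, PowerSeries.coeff n f' = ⟨PowerSeries.coeff n f, hmem n⟩ := fun n => PowerSeries.coeff_mk _ _
  have f0' : PowerSeries.constantCoeff f' = 0 := by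
    rw [← PowerSeries.coeff_zero_eq_constantCoeff_apply, hf']
    apply Subtype.ext
    show PowerSeries.coeff 0 f = 0
    rw [PowerSeries.coeff_zero_eq_constantCoeff_apply, f0]
  have f1' : PowerSeries.coeff 1 f' = -(p : V.comap (algebraMap F Ω)) := by
    rw [hf']
    apply Subtype.ext
    exact f1
  have fq1 : ∀ n, n ≠ p ^ 2 → -(p : V.comap (algebraMap F Ω)) ∣ PowerSeries.coeff n f' := by
    intro n hn
    rw [hf']
    exact rv_dvd p hp.ne_zero V _ (fV n hn)
  have fq2 : -(p : V.comap (algebraMap F Ω)) ∣ PowerSeries.coeff (p ^ 2) f' - 1 := by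
    rw [hf']
    refine rv_dvd p hp.ne_zero V _ ?_
    show V.valuation (algebraMap F Ω (PowerSeries.coeff (p ^ 2) f - 1)) ≤ V.valuation (p : Ω)
    rw [map_sub, map_one]
    exact fq
  obtain ⟨a', ha0, ha1, ha⟩ := exists_theta (π := -(p : V.comap (algebraMap F Ω))) (e := 2) hp (by norm_num)
    (rv_fermat IQ.deg p hp hin V hV) (neg_dvd.2 dvd_rfl) (rv_unit p V hV) f0' f1' fq1 fq2
  refine ⟨fun n => (a' n : F), ?_, ?_, fun n => hφ (a' n), ?_⟩
  · show ((a' 0 : V.comap (algebraMap F Ω)) : F) = 0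
    rw [ha0]
    rfl
  · show ((a' 1 : V.comap (algebraMap F Ω)) : F) = 1
    rw [ha1]
    rfl
  · intro P hP
    have h1 := theta_val φ hφ (hlt P hP) f0' ha
    have h2 : ev φ hφ (hlt P hP) f' = i (tt (-(p • P))) := by
      rw [ev_apply, ← (hf P hP).tsum_eq]
      unfold sv
      refine tsum_congr fun n => ?_
      show φ (PowerSeries.coeff n f') * i (tt P) ^ n = _
      rw [hf', hφe]
    have h3 : φ (-(p : V.comap (algebraMap F Ω))) = -(p : C) := by rw [map_neg, map_natCast]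
    rw [h2, h3] at h1
    exact h1

end SSG.LT
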