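import Mathlib
import Pool.Agent.Lib.SSG.LT.XM1
import Pool.Agent.Lib.SSG.LT.XM2
import Pool.Agent.Lib.SSG.LT.PA3

/-! # SSG/LT: the Lubin-Tate coordinates -/

open NumberField IsDedekindDomain WeierstrassCurve

namespace SSG.LT

open H55P (IQ embF eF LF Per IsHecke Pt ac Inert Dec)
open H35P (WAB Ker tt)
open H55K

variable {F : Type} [Field F] [NumberField F] [IQ F] {A B : F} {Om : ℂ} {Ω : Type} [Field Ω] [CharZero Ω] [DecidableEq Ω]
  [Algebra F Ω] {j : Ω →+* ℂ} {act : 𝓞 F →+* AddMonoid.End (Pt (WAB A B) Ω)} {p : ℕ} [Fact p.Prime] {V : ValuationSubring Ω}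

omit [DecidableEq Ω] [Algebra F Ω] [NumberField F] [IQ F] [CharZero Ω] in
theorem xm3_lt {i : Ω →+* ℂ_[p]} (hi : ∀ x, x ∈ V ↔ ‖i x‖ ≤ 1) {x : Ω} (hx : V.valuation x < 1) : ‖i x‖ < 1 := by
  by_cases h0 : x = 0
  · rw [h0, map_zero, norm_zero]
    exact one_pos
  · by_contra hc
    push Not at hc
    have h1 : ‖i x⁻¹‖ ≤ 1 := by
      rw [map_inv₀, norm_inv]
      exact inv_le_one_of_one_le₀ hc
    have h2 := (V.valuation_le_one_iff _).2 ((hi _).2 h1)
    rw [map_inv₀, inv_le_one₀ (zero_lt_iff.2 ((map_ne_zero _).2 h0))] at h2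
    exact absurd hx (not_lt.2 h2)

theorem xm3_inj {x y : PadicAlgCl p} (h : (x : ℂ_[p]) = (y : ℂ_[p])) : x = y := by
  rw [PadicComplex.coe_eq, PadicComplex.coe_eq] at h
  exact (algebraMap (PadicAlgCl p) ℂ_[p]).injective h

/-- the action of `-p` -/
theorem xm3_act (P : Pt (WAB A B) Ω) : act (-(p : 𝓞 F)) P = -(p • P) := by
  rw [map_neg, map_natCast]
  show -(((p : AddMonoid.End (Pt (WAB A B) Ω))) P) = _
  rw [AddMonoid.End.natCast_apply]

/-! Chunk XM3 (M). PROOF. i = toC i₀ (norm_toC), θ z = sv (fun n => i (a n)) z in ℂ_[p]. For every N, a: θ (i (tt (act a (T N)))) is the image of an element X N a of PadicAlgCl p: induction on N: N = 0: act a (T 0) = 0 (zero), θ 0 = 0 (sv_inj_aux).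
N + 1: -p y + y^q = θ (i (tt (act a (T N)))) for y = θ (i (tt (act a (T (N+1))))): hth for P = act a (T (N+1)): -(p • P) = act (-p) P = act a (act (-p) (T (N+1))) = act a (T N) (down, commutativity of 𝓞 F); xm1_alg.
Choose X. small: ‖θ z‖ ≤ ‖z‖ < 1 (sv_inj_aux). zero. inj: θ is isometric (sv_isom), i injective, xm1_inj, then act a (T N) = act b (T N) iff act (a - b) (T N) = 0. down: act (-p a) (T (N+1)) = act a (T N). g: hth as above (PadicAlgCl → ℂ_[p] is
injective: norm_extends; coe of powers: map_mul ..; use algebraMap (PadicAlgCl p) ℂ_[p] and PadicComplex.coe_eq). app: Q = ∑ k < n, C (a k) X^k with ρ^n ≤ ε (xm1_bd, sv_trunc): the difference in ℂ_[p] is the image of the difference in PadicAlgCl p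
(norm_extends). -/

theorem xm3 (h : CMA F A B Om j act) (hG : GV A B V) (hp : Prime (p : 𝓞 F)) (i₀ : Ω →+* PadicAlgCl p)
    (hi : ∀ x, x ∈ V ↔ ‖i₀ x‖ ≤ 1) (T : ℕ → Pt (WAB A B) Ω) (hT : PtsT A B Om j act p V T) {a : ℕ → F} (a0 : a 0 = 0) (a1 : a 1 = 1)
    (ha : ∀ n, ‖toC i₀ (algebraMap F Ω (a n))‖ ≤ 1) (hth : ∀ P : Pt (WAB A B) Ω, Ker V P →
      sv (fun n => toC i₀ (algebraMap F Ω (a n))) (toC i₀ (tt (-(p • P)))) =
        -(p : ℂ_[p]) * sv (fun n => toC i₀ (algebraMap F Ω (a n))) (toC i₀ (tt P)) +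
          sv (fun n => toC i₀ (algebraMap F Ω (a n))) (toC i₀ (tt P)) ^ (p ^ 2)) :
    ∃ X : ℕ → 𝓞 F → PadicAlgCl p, XFr p act i₀ T X ∧ ∀ N b,
      ((X N b : PadicAlgCl p) : ℂ_[p]) = sv (fun n => toC i₀ (algebraMap F Ω (a n))) (toC i₀ (tt (act b (T N)))) := by
  have hi' : ∀ x, x ∈ V ↔ ‖toC i₀ x‖ ≤ 1 := fun x => by
    rw [norm_toC]
    exact hi x
  have hlt : ∀ N b, ‖toC i₀ (tt (act b (T N)))‖ < 1 := fun N b => xm3_lt hi' (ttlt hG (hT.ker N b))
  have e0 : (fun n => toC i₀ (algebraMap F Ω (a n))) 0 = 0 := by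
    show toC i₀ (algebraMap F Ω (a 0)) = 0
    rw [a0, map_zero, map_zero]
  have e1 : (fun n => toC i₀ (algebraMap F Ω (a n))) 1 = 1 := by
    show toC i₀ (algebraMap F Ω (a 1)) = 1
    rw [a1, map_one, map_one]
  obtain ⟨θ, hθ⟩ : ∃ θ : ℕ → 𝓞 F → ℂ_[p], ∀ N b, θ N b =
      sv (fun n => toC i₀ (algebraMap F Ω (a n))) (toC i₀ (tt (act b (T N)))) := ⟨_, fun _ _ => rfl⟩
  have hpp : p.Prime := Fact.out
  -- the recursion
  have hdn : ∀ N (b : 𝓞 F), act (-(p : 𝓞 F) * b) (T (N + 1)) = act b (T N) := by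
    intro N b
    have h1 : act (-(p : 𝓞 F) * b) (T (N + 1)) = act b (act (-(p : 𝓞 F)) (T (N + 1))) := by
      rw [mul_comm, map_mul]
      rfl
    rw [h1, hT.down]
  have hdn2 : ∀ N (b : 𝓞 F), -(p • act b (T (N + 1))) = act b (T N) := by
    intro N b
    rw [← xm3_act (F := F), ← hdn N b, map_mul]
    rfl
  have hrec : ∀ N b, θ N b = -(p : ℂ_[p]) * θ (N + 1) b + θ (N + 1) b ^ (p ^ 2) := by
    intro N b
    have h1 := hth (act b (T (N + 1))) (hT.ker (N + 1) b)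
    rw [hdn2] at h1
    rw [hθ, hθ]
    exact h1
  have hsv0 : sv (fun n => toC i₀ (algebraMap F Ω (a n))) (0 : ℂ_[p]) = 0 := by
    have h1 := sv_inj_aux ha e0 (z := (0 : ℂ_[p])) (by rw [norm_zero]; exact one_pos)
    rw [norm_zero] at h1
    exact norm_le_zero_iff.1 h1
  have hθ0 : ∀ N b, (p : 𝓞 F) ^ N ∣ b → θ N b = 0 := by
    intro N b hb
    have h1 : tt (act b (T N)) = (0 : Ω) := by
      rw [(hT.zero N b).2 hb]
      rfl
    rw [hθ, h1, map_zero]
    exact hsv0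
  have hex : ∀ N b, ∃ x : PadicAlgCl p, (x : ℂ_[p]) = θ N b := by
    intro N
    induction N with
    | zero =>
      intro b
      refine ⟨0, ?_⟩
      rw [hθ0 0 b (by rw [pow_zero]; exact one_dvd b), PadicComplex.coe_eq, map_zero]
    | succ N ih =>
      intro b
      obtain ⟨x, hx⟩ := ih b
      have h1 : -(algebraMap (PadicAlgCl p) ℂ_[p] (p : PadicAlgCl p)) * θ (N + 1) b + θ (N + 1) b ^ (p ^ 2) =
          algebraMap (PadicAlgCl p) ℂ_[p] x := by
        rw [← PadicComplex.coe_eq p x, hx, hrec N b, map_natCast]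
      have hq : 2 ≤ p ^ 2 := by
        have := hpp.two_le
        nlinarith
      obtain ⟨z, hz⟩ := xm1_alg (algebraMap (PadicAlgCl p) ℂ_[p]) hq (p : PadicAlgCl p) x h1
      exact ⟨z, by rw [PadicComplex.coe_eq, hz]⟩
  choose X hX using hex
  refine ⟨X, ⟨?_, ?_, ?_, ?_, ?_, ?_⟩, fun N b => by rw [hX, hθ]⟩
  · intro N b
    rw [← PadicComplex.norm_extends, hX, hθ]
    exact (sv_inj_aux ha e0 (hlt N b)).trans_lt (hlt N b)
  · intro N
    refine xm3_inj ?_
    rw [hX, hθ0 N 0 (dvd_zero _), PadicComplex.coe_eq, map_zero]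
  · intro N b c
    constructor
    · intro h1
      have h2 : θ N b = θ N c := by rw [← hX, ← hX, h1]
      rw [hθ, hθ] at h2
      have h3 := sv_isom ha e0 e1 (hlt N b) (hlt N c)
      rw [h2, sub_self, norm_zero] at h3
      have h4 : toC i₀ (tt (act b (T N))) = toC i₀ (tt (act c (T N))) := sub_eq_zero.1 (norm_eq_zero.1 h3.symm)
      have h5 := xm1_inj hG (hT.ker N b) (hT.ker N c) ((toC i₀).injective h4)
      refine (hT.zero N _).1 ?_
      rw [map_sub]
      show act b (T N) - act c (T N) = 0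
      rw [h5, sub_self]
    · intro h1
      have h2 := (hT.zero N _).2 h1
      rw [map_sub] at h2
      have h3 : act b (T N) - act c (T N) = 0 := h2
      refine xm3_inj ?_
      rw [hX, hX, hθ, hθ, sub_eq_zero.1 h3]
  · intro N b
    refine xm3_inj ?_
    rw [hX, hX, hθ, hθ, hdn]
  · intro N b
    have h1 := hrec N b
    rw [← hX, ← hX, PadicComplex.coe_eq, PadicComplex.coe_eq] at h1
    refine (algebraMap (PadicAlgCl p) ℂ_[p]).injective ?_
    rw [h1, map_add, map_mul, map_neg, map_natCast, map_pow]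
  · intro N ε hε
    have hp1 : ((p : 𝓞 F) ^ N) ≠ 0 := pow_ne_zero _ hp.ne_zero
    obtain ⟨ρ, hρ, hρ2⟩ := xm1_bd h hG (toC i₀) hi' hp1 ((hT.zero N _).2 dvd_rfl) (hT.ker N)
    have hρ0 : 0 ≤ ρ := (norm_nonneg _).trans (hρ2 0)
    obtain ⟨n, hn⟩ := exists_pow_lt_of_lt_one hε hρ
    refine ⟨∑ k ∈ Finset.range n, Polynomial.C (a k) * Polynomial.X ^ k, fun b => ?_⟩
    rw [← PadicComplex.norm_extends, PadicComplex.coe_eq, map_sub, ← PadicComplex.coe_eq p (X N b), hX, hθ]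
    have h1 : algebraMap (PadicAlgCl p) ℂ_[p] ((∑ k ∈ Finset.range n, Polynomial.C (a k) * Polynomial.X ^ k).eval₂
        (i₀.comp (algebraMap F Ω)) (i₀ (tt (act b (T N))))) =
        ∑ k ∈ Finset.range n, toC i₀ (algebraMap F Ω (a k)) * toC i₀ (tt (act b (T N))) ^ k := by
      rw [Polynomial.eval₂_finsetSum, map_sum]
      refine Finset.sum_congr rfl fun k _ => ?_
      rw [Polynomial.eval₂_mul, Polynomial.eval₂_C, Polynomial.eval₂_pow, Polynomial.eval₂_X, map_mul, map_pow]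
      rfl
    rw [h1]
    exact (sv_trunc ha (hlt N b) n).trans ((pow_le_pow_left₀ (norm_nonneg _) (hρ2 b) n).trans hn.le)

end SSG.LT
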