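import Mathlib
import Pool.Agent.Lib.SSG.LT.XM1
import Pool.Agent.Lib.SSG.LT.PA3

/-! # SSG/LT: the functions of the multiples -/

open NumberField IsDedekindDomain WeierstrassCurve

namespace SSG.LT

open H55P (IQ embF eF LF Per IsHecke Pt ac Inert Dec)
open H35P (WAB Ker tt)
open H55K

variable {F : Type} [Field F] [NumberField F] [IQ F] {A B : F} {Om : ℂ} {Ω : Type} [Field Ω] [DecidableEq Ω]
  [Algebra F Ω] {j : Ω →+* ℂ} {act : 𝓞 F →+* AddMonoid.End (Pt (WAB A B) Ω)} {p : ℕ} [Fact p.Prime] {V : ValuationSubring Ω}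

omit [DecidableEq Ω] [Algebra F Ω] [NumberField F] [IQ F] in
theorem xm4_lt {i : Ω →+* ℂ_[p]} (hi : ∀ x, x ∈ V ↔ ‖i x‖ ≤ 1) {x : Ω} (hx : V.valuation x < 1) : ‖i x‖ < 1 := by
  by_cases h0 : x = 0
  · rw [h0, map_zero, norm_zero]
    exact one_pos
  · by_contra hc
    push Not at hc
    have h1 : ‖i x⁻¹‖ ≤ 1 := by
      rw [map_inv₀, norm_inv]
      exact inv_le_one_of_one_le₀ hc
    have h2 := (V.valuation_le_one_iff _).2 ((hi _).2 h1)
    rw [map_inv₀, inv_le_one₀ (zero_lt_iff.2 ((map_ne_zero _).2 h0))] at h2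
    exact absurd hx (not_lt.2 h2)

/-! Chunk XM4 (M). PROOF. C = ℂ_[p], i = toC i₀, τ k a = L.X N (a k) (X = ι → 𝓞 F), norms ≤ 1: ‖θ z‖ ≤ ‖z‖ < 1 (sv_inj_aux; z = i (tt ..), ‖z‖ < 1: norm_toC, ttlt and hi). For each k: PC V i τ (fun a => act (a k) (T N)): ker: hT.ker; small: xm1_bd
(b = p^N, hT.zero); cl: Cl.of_sv with H = i (tt (act (a k) (T N))) and Cl.var k (hX). PC.act_all (c k), PC.sum: PC V i τ (fun a => ∑ k, act (c k) (act (a k) (T N))), and the sum is act (∑ k, c k * a k) (T N) (map_sum, map_mul; AddMonoid.End).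
L.Fn N ι H unfolds to Cl τ H. -/

theorem xm4 (h : CMA F A B Om j act) (hG : GV A B V) (i₀ : Ω →+* PadicAlgCl p) (hi : ∀ x, x ∈ V ↔ ‖i₀ x‖ ≤ 1)
    (T : ℕ → Pt (WAB A B) Ω) (hT : PtsT A B Om j act p V T) {a : ℕ → F} (a0 : a 0 = 0) (a1 : a 1 = 1)
    (ha : ∀ n, ‖toC i₀ (algebraMap F Ω (a n))‖ ≤ 1) (L : LTF F ℂ_[p])
    (hX : ∀ N b, L.X N b = sv (fun n => toC i₀ (algebraMap F Ω (a n))) (toC i₀ (tt (act b (T N)))))
    (N : ℕ) (ι : Type) [Fintype ι] (c : ι → 𝓞 F) :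
    L.Fn N ι (fun a => toC i₀ (tt (act (∑ k, c k * a k) (T N)))) := by
  have hi' : ∀ x, x ∈ V ↔ ‖toC i₀ x‖ ≤ 1 := fun x => by
    rw [norm_toC]
    exact hi x
  have hlt : ∀ N b, ‖toC i₀ (tt (act b (T N)))‖ < 1 := fun N b => xm4_lt hi' (ttlt hG (hT.ker N b))
  have e0 : (fun n => toC i₀ (algebraMap F Ω (a n))) 0 = 0 := by
    show toC i₀ (algebraMap F Ω (a 0)) = 0
    rw [a0, map_zero, map_zero]
  have e1 : (fun n => toC i₀ (algebraMap F Ω (a n))) 1 = 1 := by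
    show toC i₀ (algebraMap F Ω (a 1)) = 1
    rw [a1, map_one, map_one]
  have hτ : ∀ (k : ι) (x : ι → 𝓞 F), ‖(fun (k : ι) (x : ι → 𝓞 F) => L.X N (x k)) k x‖ ≤ 1 := by
    intro k x
    show ‖L.X N (x k)‖ ≤ 1
    rw [hX N (x k)]
    exact (sv_inj_aux ha e0 (hlt N (x k))).trans (hlt N (x k)).le
  have hp0 : ((p : 𝓞 F) ^ N) ≠ 0 := pow_ne_zero _ (Nat.cast_ne_zero.2 (Fact.out : p.Prime).ne_zero)
  obtain ⟨ρ, hρ, hρ2⟩ := xm1_bd h hG (toC i₀) hi' hp0 ((hT.zero N _).2 dvd_rfl) (hT.ker N)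
  have hPC : ∀ k : ι, PC V (toC i₀) (fun (k : ι) (x : ι → 𝓞 F) => L.X N (x k)) (fun x => act (x k) (T N)) := fun k =>
    ⟨fun x => hT.ker N (x k), ⟨ρ, hρ, fun x => hρ2 _⟩,
      Cl.of_sv hτ hρ (fun x => hρ2 _) ha e0 e1
        ((Cl.var (τ := fun (k : ι) (x : ι → 𝓞 F) => L.X N (x k)) k).congr fun x => (hX N (x k)).symm)⟩
  have h2 := PC.sum hτ hi' hG Finset.univ (P := fun (k : ι) (x : ι → 𝓞 F) => act (c k) (act (x k) (T N)))
    fun k _ => PC.act_all hτ hi' h hG (c k) (hPC k)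
  have h3 : (fun x : ι → 𝓞 F => ∑ k, act (c k) (act (x k) (T N))) = fun x : ι → 𝓞 F => act (∑ k, c k * x k) (T N) := by
    funext x
    have h4 : ∀ s : Finset ι, act (∑ k ∈ s, c k * x k) (T N) = ∑ k ∈ s, act (c k) (act (x k) (T N)) := by
      classical
      intro s
      induction s using Finset.induction_on with
      | empty =>
        rw [Finset.sum_empty, Finset.sum_empty, map_zero]
        rfl
      | insert k s hk ih =>
        rw [Finset.sum_insert hk, Finset.sum_insert hk, map_add, map_mul]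
        show act (c k) (act (x k) (T N)) + act (∑ k ∈ s, c k * x k) (T N) = _
        rw [ih]
    exact (h4 Finset.univ).symm
  have h4 := h2.cl
  intro ε hε
  obtain ⟨Q, hQ, h5⟩ := h4 ε hε
  refine ⟨Q, hQ, fun x => ?_⟩
  have h6 := h5 x
  have h7 : ∑ k, act (c k) (act (x k) (T N)) = act (∑ k, c k * x k) (T N) := congrFun h3 x
  show ‖toC i₀ (tt (act (∑ k, c k * x k) (T N))) - _‖ ≤ ε
  rw [← h7]
  exact h6

end SSG.LT
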