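import Mathlib
import Pool.Agent.Lib.SSG.LT.EM
import Pool.Agent.Lib.SSG.LT.PT
import Pool.Agent.Lib.SSG.LT.XM3
import Pool.Agent.Lib.SSG.LT.XM4
import Pool.Agent.Lib.SSG.Z.G6
import Pool.Agent.Lib.SSG.F.X1B
import Pool.Agent.Lib.H16S.F13

/-! # SSG, module (LT): the local model (final assembly) -/

open NumberField IsDedekindDomain WeierstrassCurve

namespace SSG

open H55P (IQ embF eF LF Per IsHecke Pt ac Inert Dec)
open H35P (WAB Ker tt)
open H55K

/-- (LT) existence of the local model, for supersingular reduction (`H16S.Sup`). -/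
theorem exists_locM_sup {F : Type} [Field F] [NumberField F] [IQ F] {A B : F} {Om : ℂ} {Ω : Type} [Field Ω] [DecidableEq Ω]
    [Algebra F Ω] [IsAlgClosure F Ω] {j : Ω →+* ℂ} {act : 𝓞 F →+* AddMonoid.End (Pt (WAB A B) Ω)}
    {m : Ideal (𝓞 F)} {ψ : Ideal (𝓞 F) →*₀ 𝓞 F} {p : ℕ} [Fact p.Prime] (d : Dta A B Om j act m ψ p)
    (hin : (Ideal.span {(p : 𝓞 F)}).IsPrime) (hS : H16S.Sup act p) (V : ValuationSubring Ω)
    (hV : V.valuation (p : Ω) < 1) :
    ∃ (i : Ω →+* ℂ_[p]) (T : ℕ → Pt (WAB A B) Ω) (L : LTF F ℂ_[p]), LocM A B Om j act p V i T L := by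
  have hpp : p.Prime := Fact.out
  have hp0 : (p : 𝓞 F) ≠ 0 := Nat.cast_ne_zero.2 hpp.ne_zero
  have hp : Prime (p : 𝓞 F) := (Ideal.span_singleton_prime hp0).1 hin
  have hG : GV A B V := d.good V hV
  haveI : CharZero Ω := charZero_of_injective_algebraMap (algebraMap F Ω).injective
  obtain ⟨i₀, hi₀⟩ := LT.em (F := F) hp V hV
  obtain ⟨T, hT⟩ := LT.pt (j := j) (Om := Om) d.cma hG hp hV
  obtain ⟨f, f0, f1, hf⟩ := H16S.FRmain d.cma hpp d.five hp hS d.good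
  obtain ⟨-, fV, fq, hs⟩ := hf V hV
  have hi : ∀ x, x ∈ V ↔ ‖toC i₀ x‖ ≤ 1 := fun x => by rw [norm_toC]; exact hi₀ x
  have hlt : ∀ P : Pt (WAB A B) Ω, Ker V P → ‖toC i₀ (tt P)‖ < 1 := by
    intro P hP
    by_contra hc
    have h1 := ttlt hG hP
    have h2 : (tt P) ≠ 0 := by
      intro h0
      rw [h0, map_zero, norm_zero] at hc
      exact hc one_pos
    have h3 : ‖toC i₀ (tt P)⁻¹‖ ≤ 1 := by
      rw [map_inv₀, norm_inv]
      exact inv_le_one_of_one_le₀ (not_lt.1 hc)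
    have h4 := (V.valuation_le_one_iff _).2 ((hi _).2 h3)
    rw [map_inv₀] at h4
    have h5 : 0 < V.valuation (tt P) := zero_lt_iff.2 ((map_ne_zero _).2 h2)
    exact absurd h1 (not_lt.2 ((inv_le_one₀ h5).1 h4))
  obtain ⟨a, a0, a1, ha, hth⟩ := LT.xm2 (A := A) (B := B) (toC i₀) hi hp hV
    (by rw [← PowerSeries.coeff_zero_eq_constantCoeff_apply]; exact f0) f1 fV
    (by rw [← map_one (algebraMap F Ω), ← map_sub]; exact fq) hlt (fun P hP => hs ℂ_[p] (toC i₀) hi P hP)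
  obtain ⟨X, hX, hXs⟩ := LT.xm3 (Om := Om) d.cma hG hp i₀ hi₀ T hT a0 a1 ha hth
  obtain ⟨L, hL, hgood⟩ := exists_good d hin V i₀ hi₀ T hT X hX
  refine ⟨toC i₀, T, L, ?_⟩
  exact
    { val := hi
      ok := SSF.good_ok hin L hgood
      good := hgood
      zero := hT.zero
      down := hT.down
      unif := hT.unif
      ker := hT.ker
      fn := fun N ι _ c => LT.xm4 (j := j) (Om := Om) d.cma hG i₀ hi₀ T hT a0 a1 ha L
        (fun N b => by rw [hL, hXs]) N ι c }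

end SSG
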