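import Mathlib
import Pool.Agent.Lib.SSG.LT.D

/-! # SSG, module (LT): the main statements -/

open NumberField IsDedekindDomain WeierstrassCurve

namespace SSG

open H55P (IQ embF eF LF Per IsHecke Pt ac Inert Dec)
open H35P (WAB Ker tt)
open H55K

variable {F : Type} [Field F] [NumberField F] [IQ F] {A B : F} {Om : ℂ} {Ω : Type} [Field Ω] [DecidableEq Ω]
  [Algebra F Ω] [IsAlgClosure F Ω] {j : Ω →+* ℂ} {act : 𝓞 F →+* AddMonoid.End (Pt (WAB A B) Ω)}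
  {m : Ideal (𝓞 F)} {ψ : Ideal (𝓞 F) →*₀ 𝓞 F} {p : ℕ} [Fact p.Prime]

/-- The embedding: every place of `Ω` above `p` comes from an embedding in `PadicAlgCl p`. -/
theorem exists_emb (hin : Prime (p : 𝓞 F)) (V : ValuationSubring Ω) (hV : V.valuation (p : Ω) < 1) :
    ∃ i₀ : Ω →+* PadicAlgCl p, ∀ x, x ∈ V ↔ ‖i₀ x‖ ≤ 1 := by
  sorry

/-- The same with values in `ℂ_[p]`. -/
theorem exists_embC (hin : Prime (p : 𝓞 F)) (V : ValuationSubring Ω) (hV : V.valuation (p : Ω) < 1) :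
    ∃ i : Ω →+* ℂ_[p], ∀ x, x ∈ V ↔ ‖i x‖ ≤ 1 := by
  obtain ⟨i₀, h⟩ := exists_emb (F := F) hin V hV
  exact ⟨toC i₀, fun x => by rw [norm_toC]; exact h x⟩

/-- The points. -/
theorem exists_pts (d : Dta A B Om j act m ψ p) (hin : Prime (p : 𝓞 F)) (V : ValuationSubring Ω)
    (hV : V.valuation (p : Ω) < 1) : ∃ T : ℕ → Pt (WAB A B) Ω, PtsT A B Om j act p V T := by
  sorry

/-- The coordinates. -/
theorem exists_X (d : Dta A B Om j act m ψ p) (hin : Prime (p : 𝓞 F)) (V : ValuationSubring Ω)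
    (hV : V.valuation (p : Ω) < 1) (i₀ : Ω →+* PadicAlgCl p) (hi : ∀ x, x ∈ V ↔ ‖i₀ x‖ ≤ 1)
    (T : ℕ → Pt (WAB A B) Ω) (hT : PtsT A B Om j act p V T) :
    ∃ X : ℕ → 𝓞 F → PadicAlgCl p, XFr p act i₀ T X ∧
      ∀ (L : LTF F ℂ_[p]), (∀ N a, L.X N a = (X N a : ℂ_[p])) → ∀ (N : ℕ) (ι : Type) [Fintype ι]
        (c : ι → 𝓞 F), L.Fn N ι (fun a => toC i₀ (tt (act (∑ k, c k * a k) (T N)))) := by
  sorry

end SSG
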